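import Mathlib

set_option autoImplicit false

/-!
Definitions and small lemmas for MP_8b3902_co (helper49).

`Conn G A u v`: there is a walk from `u` to `v` all of whose vertices lie in `A`.
`cc G A u`: the component of `G[A]` containing `u` (empty if `u ∉ A`).
`Small G X c`: every independent set contained in `X` has at most `c` elements.
-/

namespace Pool.Agent.MP_8b3902_co

open Classical

variable {V : Type}

/-- `u` and `v` are joined by a walk inside `A`. -/
def Conn (G : SimpleGraph V) (A : Set V) (u v : V) : Prop :=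
  ∃ w : G.Walk u v, ∀ x ∈ w.support, x ∈ A

/-- component of `u` in `G[A]`. -/
def cc (G : SimpleGraph V) (A : Set V) (u : V) : Set V := {v | Conn G A u v}

/-- the independence number of `G[X]` is at most `c`. -/
def Small (G : SimpleGraph V) (X : Set V) (c : ℕ) : Prop :=
  ∀ S : Finset V, (∀ v ∈ S, v ∈ X) → (∀ u ∈ S, ∀ w ∈ S, ¬ G.Adj u w) → S.card ≤ c

/-- closed neighbourhood. -/
def nb (G : SimpleGraph V) (v : V) : Set V := {x | x = v ∨ G.Adj v x}

/-- `(A, I)` is concentrated: deleting a set of independence number at most `c` leaves a component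
of `G[A \ X]` which misses at most a fraction `1/D` of `I`. -/
def Conc (G : SimpleGraph V) (A : Set V) (I : Finset V) (c D : ℕ) : Prop :=
  ∀ X : Set V, Small G X c →
    ∃ u ∈ A \ X, D * (I.filter (fun i => i ∉ cc G (A \ X) u)).card ≤ I.card

/-- `Y` is not trapping for `(A, I)`: after deleting `Y` and a set of independence number at most
`b` there is still a component with more than a fraction `1/E` of `I`. -/
def Ntr (G : SimpleGraph V) (A Y : Set V) (I : Finset V) (b E : ℕ) : Prop :=
  ∀ X : Set V, Small G X b →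
    ∃ u ∈ A \ (Y ∪ X), I.card < E * (I.filter (fun i => i ∈ cc G (A \ (Y ∪ X)) u)).card

/-- there is no induced `K_{t,t}`. -/
def Kfree (G : SimpleGraph V) (t : ℕ) : Prop :=
  ∀ P Q : Finset V, P.card = t → Q.card = t → (∀ u ∈ P, ∀ w ∈ P, ¬ G.Adj u w) →
    (∀ u ∈ Q, ∀ w ∈ Q, ¬ G.Adj u w) → ∃ p ∈ P, ∃ q ∈ Q, ¬ G.Adj p q

/-- `f` is an induced path. -/
def IsIndPath (G : SimpleGraph V) {n : ℕ} (f : Fin n → V) : Prop :=
  Function.Injective f ∧
    ∀ i j : Fin n, G.Adj (f i) (f j) ↔ (i.val + 1 = j.val ∨ j.val + 1 = i.val)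

/-- there is no induced path on `k` vertices. -/
def Pfree (G : SimpleGraph V) (k : ℕ) : Prop := ∀ f : Fin k → V, ¬ IsIndPath G f

/-- `HP G n v A`: there is an induced path on `n + 1` vertices starting at `v ∉ A` all of whose
other vertices are in `A` (in the inductive form used in the proof). -/
inductive HP (G : SimpleGraph V) : ℕ → V → Set V → Prop
  | zero (v : V) (A : Set V) : v ∉ A → HP G 0 v A
  | succ (n : ℕ) (v w : V) (A A' : Set V) : v ∉ A → w ∈ A → G.Adj v w → A' ⊆ A →
      (∀ x ∈ A', ¬ G.Adj v x) → HP G n w A' → HP G (n + 1) v A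

/-- A tree decomposition of `G[A]` with root bag `R` and bags of independence number at most `K`,
in the form of a sequence of bags `B 0, ..., B (n-1)` with parent pointers `p` and the running
intersection property. -/
def HasDec (G : SimpleGraph V) (A R : Finset V) (K : ℕ) : Prop :=
  ∃ (n : ℕ) (B : ℕ → Finset V) (p : ℕ → ℕ), 0 < n ∧ B 0 = R ∧ (∀ i < n, B i ⊆ A) ∧
    (∀ v ∈ A, ∃ i < n, v ∈ B i) ∧
    (∀ u ∈ A, ∀ v ∈ A, G.Adj u v → ∃ i < n, u ∈ B i ∧ v ∈ B i) ∧
    (∀ i < n, 0 < i → p i < i ∧ ∀ j < i, ∀ v, v ∈ B i → v ∈ B j → v ∈ B (p i)) ∧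
    ∀ i < n, Small G (B i : Set V) K

/-! ### connectivity -/

section conn
variable {G : SimpleGraph V} {A B : Set V} {u v w : V}

theorem conn_refl (h : u ∈ A) : Conn G A u u :=
  ⟨SimpleGraph.Walk.nil, by simpa using h⟩

theorem conn_symm (h : Conn G A u v) : Conn G A v u := by
  obtain ⟨p, hp⟩ := h
  exact ⟨p.reverse, by simpa using hp⟩

theorem conn_trans (h : Conn G A u v) (h' : Conn G A v w) : Conn G A u w := by
  obtain ⟨p, hp⟩ := h
  obtain ⟨q, hq⟩ := h'
  refine ⟨p.append q, fun x hx => ?_⟩
  rcases (SimpleGraph.Walk.mem_support_append_iff p q).1 hx with h | h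
  · exact hp x h
  · exact hq x h

theorem conn_mono (hAB : A ⊆ B) (h : Conn G A u v) : Conn G B u v := by
  obtain ⟨p, hp⟩ := h
  exact ⟨p, fun x hx => hAB (hp x hx)⟩

theorem conn_left (h : Conn G A u v) : u ∈ A := by
  obtain ⟨p, hp⟩ := h
  exact hp u p.start_mem_support

theorem conn_right (h : Conn G A u v) : v ∈ A := by
  obtain ⟨p, hp⟩ := h
  exact hp v p.end_mem_support

theorem conn_adj (hu : u ∈ A) (hv : v ∈ A) (h : G.Adj u v) : Conn G A u v := by
  refine ⟨h.toWalk, fun x hx => ?_⟩
  simp at hx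
  rcases hx with rfl | rfl <;> assumption

theorem cc_subset (u : V) : cc G A u ⊆ A := fun _ hx => conn_right hx

theorem mem_cc_self (h : u ∈ A) : u ∈ cc G A u := conn_refl h

theorem cc_mono (hAB : A ⊆ B) (u : V) : cc G A u ⊆ cc G B u := fun _ hx => conn_mono hAB hx

theorem cc_eq (h : v ∈ cc G A u) : cc G A v = cc G A u := by
  ext x
  exact ⟨fun hx => conn_trans h hx, fun hx => conn_trans (conn_symm h) hx⟩

/-- a walk in `A` starting at `u` stays in the component of `u`. -/
theorem conn_in_cc (h : Conn G A u v) : Conn G (cc G A u) u v := by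
  obtain ⟨p, hp⟩ := h
  refine ⟨p, fun x hx => ?_⟩
  refine ⟨p.takeUntil x hx, fun y hy => hp y ?_⟩
  exact SimpleGraph.Walk.support_takeUntil_subset_support p hx hy

/-- components are connected. -/
theorem cc_conn {x y : V} (hx : x ∈ cc G A u) (hy : y ∈ cc G A u) : Conn G (cc G A u) x y :=
  conn_trans (conn_symm (conn_in_cc hx)) (conn_in_cc hy)

/-- closedness: a neighbour in `A` of an element of the component is in the component. -/
theorem cc_closed {x y : V} (hx : x ∈ cc G A u) (hy : y ∈ A) (h : G.Adj x y) : y ∈ cc G A u :=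
  conn_trans hx (conn_adj (conn_right hx) hy h)

/-- A connected set meeting a component (and inside `A`) is contained in it. -/
theorem subset_cc_of_conn {C : Set V} (hC : C ⊆ A) (hconn : ∀ x ∈ C, ∀ y ∈ C, Conn G C x y)
    {z : V} (hz : z ∈ C) (hz' : z ∈ cc G A u) : C ⊆ cc G A u := fun x hx =>
  conn_trans hz' (conn_mono hC (hconn z hz x hx))

/-- If `x ∈ C`, `y ∉ C` are connected in `R`, there is an edge in `R` leaving `C`. -/
theorem exists_exit {R C : Set V} {x y : V} (hx : x ∈ C) (hy : y ∉ C) (h : Conn G R x y) :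
    ∃ z w : V, z ∈ C ∧ w ∉ C ∧ z ∈ R ∧ w ∈ R ∧ G.Adj z w := by
  obtain ⟨p, hp⟩ := h
  induction p with
  | nil => exact absurd hx hy
  | @cons a b c hab q ih =>
    by_cases hb : b ∈ C
    · exact ih hb hy (fun z hz => hp z (by simp [hz]))
    · exact ⟨a, b, hx, hb, hp a (by simp), hp b (by simp), hab⟩

end conn

/-! ### small sets -/

section small
variable {G : SimpleGraph V} {X Y : Set V} {a b : ℕ}

theorem small_mono (hXY : X ⊆ Y) (hab : a ≤ b) (h : Small G Y a) : Small G X b :=
  fun S hS hS' => (h S (fun v hv => hXY (hS v hv)) hS').trans hab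

theorem small_union (hX : Small G X a) (hY : Small G Y b) : Small G (X ∪ Y) (a + b) := by
  intro S hS hS'
  have h1 := hX (S.filter (fun v => v ∈ X)) (fun v hv => (Finset.mem_filter.1 hv).2)
    (fun u hu w hw => hS' u (Finset.mem_filter.1 hu).1 w (Finset.mem_filter.1 hw).1)
  have h2 := hY (S.filter (fun v => ¬ v ∈ X))
    (fun v hv => by
      rcases hS v (Finset.mem_filter.1 hv).1 with h | h
      · exact absurd h (Finset.mem_filter.1 hv).2
      · exact h)
    (fun u hu w hw => hS' u (Finset.mem_filter.1 hu).1 w (Finset.mem_filter.1 hw).1)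
  have h3 := Finset.card_filter_add_card_filter_not (s := S) (fun v => v ∈ X)
  omega

theorem small_empty (a : ℕ) : Small G (∅ : Set V) a := by
  intro S hS _
  have : S = ∅ := Finset.eq_empty_of_forall_notMem (fun v hv => (hS v hv).elim)
  simp [this]

theorem small_singleton (v : V) : Small G ({v} : Set V) 1 := by
  intro S hS _
  refine Finset.card_le_one.2 (fun a ha b hb => ?_)
  have h1 := hS a ha
  have h2 := hS b hb
  simp at h1 h2
  rw [h1, h2]

theorem small_biUnion {ι : Type} (s : Finset ι) (X : ι → Set V) (c : ℕ)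
    (h : ∀ i ∈ s, Small G (X i) c) : Small G (⋃ i ∈ s, X i) (s.card * c) := by
  induction s using Finset.induction_on with
  | empty => simpa using small_empty (G := G) 0
  | insert i s his ih =>
    rw [Finset.card_insert_of_notMem his]
    have h1 := small_union (h i (Finset.mem_insert_self i s))
      (ih (fun j hj => h j (Finset.mem_insert_of_mem hj)))
    refine small_mono ?_ (le_of_eq (by ring)) h1
    simp

end small

end Pool.Agent.MP_8b3902_co
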