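import Pool.Agent.Lib.MP_8b3902_co.Basic

set_option autoImplicit false

namespace Pool.Agent.MP_8b3902_co

open Classical

variable {V : Type}

/-- disjoint components each containing more than a fraction `1/E` of `I`: at most `E`. -/
theorem card_big_comps (G : SimpleGraph V) (Z : Set V) (I : Finset V) (E : ℕ) (hI : 0 < I.card) :
    (((I.filter (fun i => i ∈ Z ∧ I.card < E * (I.filter (fun j => j ∈ cc G Z i)).card)).image
      (cc G Z)).card) ≤ E := by
  set K := (I.filter (fun i => i ∈ Z ∧
    I.card < E * (I.filter (fun j => j ∈ cc G Z i)).card)).image (cc G Z) with hK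
  have hbig : ∀ C ∈ K, I.card < E * (I.filter (fun j => j ∈ C)).card := by
    intro C hC
    rw [hK, Finset.mem_image] at hC
    obtain ⟨i, hi, rfl⟩ := hC
    exact (Finset.mem_filter.1 hi).2.2
  have hdisj : ∀ C ∈ K, ∀ C' ∈ K, C ≠ C' →
      Disjoint (I.filter (fun j => j ∈ C)) (I.filter (fun j => j ∈ C')) := by
    intro C hC C' hC' hne
    rw [Finset.disjoint_left]
    intro j hj hj'
    rw [hK, Finset.mem_image] at hC hC'
    obtain ⟨i, _, rfl⟩ := hC
    obtain ⟨i', _, rfl⟩ := hC'
    apply hne
    rw [← cc_eq (Finset.mem_filter.1 hj).2, ← cc_eq (Finset.mem_filter.1 hj').2]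
  have hsum : ∑ C ∈ K, (I.filter (fun j => j ∈ C)).card ≤ I.card := by
    rw [← Finset.card_biUnion hdisj]
    apply Finset.card_le_card
    intro j hj
    rw [Finset.mem_biUnion] at hj
    obtain ⟨C, _, hj⟩ := hj
    exact (Finset.mem_filter.1 hj).1
  have h1 : K.card * I.card ≤ E * I.card := by
    calc K.card * I.card = ∑ _C ∈ K, I.card := by rw [Finset.sum_const, smul_eq_mul]
      _ ≤ ∑ C ∈ K, E * (I.filter (fun j => j ∈ C)).card :=
          Finset.sum_le_sum (fun C hC => (hbig C hC).le)
      _ = E * ∑ C ∈ K, (I.filter (fun j => j ∈ C)).card := by rw [Finset.mul_sum]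
      _ ≤ E * I.card := Nat.mul_le_mul_left _ hsum
  exact Nat.le_of_mul_le_mul_right h1 hI

/-- T5. If `Y` is not trapping for `(A, I)`, then after deleting `Y` and a small set we find a
component which is concentrated. -/
theorem break_lemma [Fintype V] (G : SimpleGraph V) (A Y : Set V) (I : Finset V)
    (b c' D E N : ℕ) (hE : 0 < E) (hD : 2 ≤ D) (hN : E * (D - 1) ^ N ≤ D ^ N)
    (hb : N * (E * c') ≤ b) (h : Ntr G A Y I b E) :
    ∃ (X : Set V) (u : V), Small G X b ∧ u ∈ A \ (Y ∪ X) ∧
      I.card < E * (I.filter (fun i => i ∈ cc G (A \ (Y ∪ X)) u)).card ∧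
      Conc G (cc G (A \ (Y ∪ X)) u) (I.filter (fun i => i ∈ cc G (A \ (Y ∪ X)) u)) c' D := by
  by_contra hcon
  push Not at hcon
  have hIpos : 0 < I.card := by
    obtain ⟨u, _, hu⟩ := h ∅ (small_empty b)
    by_contra h0
    have h1 : (I.filter (fun i => i ∈ cc G (A \ (Y ∪ ∅)) u)).card ≤ I.card :=
      Finset.card_filter_le _ _
    have h2 : (I.filter (fun i => i ∈ cc G (A \ (Y ∪ ∅)) u)).card = 0 := by omega
    rw [h2] at hu
    omega
  -- the iteration
  have key : ∀ j, j ≤ N → ∃ X : Set V, Small G X (j * (E * c')) ∧ ∀ u ∈ A \ (Y ∪ X),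
      E * (I.filter (fun i => i ∈ cc G (A \ (Y ∪ X)) u)).card ≤ I.card ∨
      D ^ j * (I.filter (fun i => i ∈ cc G (A \ (Y ∪ X)) u)).card ≤ (D - 1) ^ j * I.card := by
    intro j
    induction j with
    | zero =>
      intro _
      exact ⟨∅, small_empty _, fun u _ => Or.inr (by
        simpa using Finset.card_filter_le _ _)⟩
    | succ j ih =>
      intro hj
      obtain ⟨X, hX, hXj⟩ := ih (by omega)
      have hXb : Small G X b := small_mono le_rfl
        (le_trans (Nat.mul_le_mul_right _ (by omega : j ≤ N)) hb) hX
      set Z := A \ (Y ∪ X) with hZ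
      set K := (I.filter (fun i => i ∈ Z ∧
        I.card < E * (I.filter (fun j => j ∈ cc G Z i)).card)).image (cc G Z) with hK
      have hKcard : K.card ≤ E := by
        rw [hK]; convert card_big_comps G Z I E hIpos
      -- breaking sets
      have hXC : ∀ C : Set V, ∃ W : Set V, C ∈ K → (Small G W c' ∧ ∀ w ∈ C \ W,
          (I.filter (fun i => i ∈ C)).card <
            D * ((I.filter (fun i => i ∈ C)).filter (fun i => i ∉ cc G (C \ W) w)).card) := by
        intro C
        by_cases hC : C ∈ K
        · rw [hK, Finset.mem_image] at hC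
          obtain ⟨i, hi, rfl⟩ := hC
          rw [Finset.mem_filter] at hi
          have h1 := hcon X i hXb hi.2.1 hi.2.2
          unfold Conc at h1
          push Not at h1
          obtain ⟨W, hW, hW2⟩ := h1
          exact ⟨W, fun _ => ⟨hW, hW2⟩⟩
        · exact ⟨∅, fun h => absurd h hC⟩
      choose W hW using hXC
      refine ⟨X ∪ ⋃ C ∈ K, W C, ?_, ?_⟩
      · refine small_mono le_rfl ?_ (small_union hX (small_biUnion K W c' (fun C hC => (hW C hC).1)))
        have := Nat.mul_le_mul_right c' hKcard
        rw [Nat.succ_mul]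
        omega
      · intro w hw
        set X' := X ∪ ⋃ C ∈ K, W C with hX'
        have hsub : A \ (Y ∪ X') ⊆ Z := fun z hz => ⟨hz.1, fun h => hz.2 (by
          rcases h with h | h
          · exact Or.inl h
          · exact Or.inr (Or.inl h))⟩
        have hwZ : w ∈ Z := hsub hw
        have hC'C : cc G (A \ (Y ∪ X')) w ⊆ cc G Z w := cc_mono hsub w
        have hcard1 : (I.filter (fun i => i ∈ cc G (A \ (Y ∪ X')) w)).card ≤
            (I.filter (fun i => i ∈ cc G Z w)).card := by
          apply Finset.card_le_card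
          intro i hi
          rw [Finset.mem_filter] at hi ⊢
          exact ⟨hi.1, hC'C hi.2⟩
        by_cases hbig : I.card < E * (I.filter (fun j => j ∈ cc G Z w)).card
        · right
          -- the component is in `K`
          have hne : (I.filter (fun j => j ∈ cc G Z w)).Nonempty := by
            rw [← Finset.card_pos]
            by_contra h0
            have : (I.filter (fun j => j ∈ cc G Z w)).card = 0 := by omega
            rw [this] at hbig
            omega
          obtain ⟨i, hi⟩ := hne
          rw [Finset.mem_filter] at hi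
          have hcci : cc G Z i = cc G Z w := cc_eq hi.2
          have hCK : cc G Z w ∈ K := by
            rw [hK, Finset.mem_image]
            refine ⟨i, Finset.mem_filter.2 ⟨hi.1, cc_subset w hi.2, ?_⟩, hcci⟩
            rw [hcci]
            exact hbig
          obtain ⟨_, hW2⟩ := hW _ hCK
          have hwW : w ∈ cc G Z w \ W (cc G Z w) :=
            ⟨mem_cc_self hwZ, fun h => hw.2 (Or.inr (Or.inr (Set.mem_biUnion hCK h)))⟩
          have h1 := hW2 w hwW
          have hsub2 : cc G (A \ (Y ∪ X')) w ⊆ cc G Z w \ W (cc G Z w) := fun z hz =>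
            ⟨hC'C hz, fun h => (cc_subset w hz).2 (Or.inr (Or.inr (Set.mem_biUnion hCK h)))⟩
          have hsub3 : cc G (A \ (Y ∪ X')) w ⊆ cc G (cc G Z w \ W (cc G Z w)) w :=
            subset_cc_of_conn hsub2 (fun x hx y hy => cc_conn hx hy) (mem_cc_self hw)
              (mem_cc_self hwW)
          have hsplit := Finset.card_filter_add_card_filter_not
            (s := I.filter (fun i => i ∈ cc G Z w))
            (fun i => i ∈ cc G (cc G Z w \ W (cc G Z w)) w)
          have hcard2 : (I.filter (fun i => i ∈ cc G (A \ (Y ∪ X')) w)).card ≤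
              ((I.filter (fun i => i ∈ cc G Z w)).filter
                (fun i => i ∈ cc G (cc G Z w \ W (cc G Z w)) w)).card := by
            apply Finset.card_le_card
            intro i hi
            rw [Finset.mem_filter] at hi ⊢
            exact ⟨Finset.mem_filter.2 ⟨hi.1, hC'C hi.2⟩, hsub3 hi.2⟩
          set a := (I.filter (fun i => i ∈ cc G Z w)).card with ha
          set a' := (I.filter (fun i => i ∈ cc G (A \ (Y ∪ X')) w)).card with ha'
          set n1 := ((I.filter (fun i => i ∈ cc G Z w)).filter
                (fun i => i ∈ cc G (cc G Z w \ W (cc G Z w)) w)).card with hn1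
          set n2 := ((I.filter (fun i => i ∈ cc G Z w)).filter
                (fun i => i ∉ cc G (cc G Z w \ W (cc G Z w)) w)).card with hn2
          -- D a' ≤ (D-1) a
          have h2 : D * a' ≤ (D - 1) * a := by
            obtain ⟨d, rfl⟩ : ∃ d, D = d + 1 := ⟨D - 1, by omega⟩
            have h3 : (d + 1) * a' ≤ (d + 1) * n1 := Nat.mul_le_mul_left _ hcard2
            have h4 : (d + 1) * a = (d + 1) * n1 + (d + 1) * n2 := by rw [← hsplit]; ring
            have h5 : (d + 1) * a = d * a + a := by ring
            have h6 : d + 1 - 1 = d := by omega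
            rw [h6]
            omega
          rcases hXj w hwZ with h3 | h3
          · exact absurd hbig (not_lt.2 (by convert h3))
          · calc D ^ (j + 1) * a' = D ^ j * (D * a') := by ring
              _ ≤ D ^ j * ((D - 1) * a) := Nat.mul_le_mul_left _ h2
              _ = (D - 1) * (D ^ j * a) := by ring
              _ ≤ (D - 1) * ((D - 1) ^ j * I.card) := Nat.mul_le_mul_left _ h3
              _ = (D - 1) ^ (j + 1) * I.card := by ring
        · left
          push Not at hbig
          exact le_trans (Nat.mul_le_mul_left _ hcard1) hbig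
  obtain ⟨X, hX, hXN⟩ := key N le_rfl
  obtain ⟨u, hu, hbig⟩ := h X (small_mono le_rfl hb hX)
  rcases hXN u hu with h1 | h1
  · omega
  · set a := (I.filter (fun i => i ∈ cc G (A \ (Y ∪ X)) u)).card with ha
    have h2 : D ^ N * (E * a) ≤ D ^ N * I.card := by
      calc D ^ N * (E * a) = E * (D ^ N * a) := by ring
        _ ≤ E * ((D - 1) ^ N * I.card) := Nat.mul_le_mul_left _ h1
        _ = (E * (D - 1) ^ N) * I.card := by ring
        _ ≤ D ^ N * I.card := Nat.mul_le_mul_right _ hN
    have h3 : 0 < D ^ N := by positivity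
    have h4 := Nat.le_of_mul_le_mul_left h2 h3
    omega

end Pool.Agent.MP_8b3902_co
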