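import Pool.Agent.Lib.MP_8b3902_co.Basic

set_option autoImplicit false

namespace Pool.Agent.MP_8b3902_co

open Classical

variable {V : Type}

/-- T6. -/
theorem hasDec_refl (G : SimpleGraph V) (R : Finset V) (K : ℕ) (h : Small G (R : Set V) K) :
    HasDec G R R K := by
  refine ⟨1, fun _ => R, fun _ => 0, Nat.one_pos, rfl, fun _ _ => Finset.Subset.refl _,
    fun v hv => ⟨0, Nat.one_pos, hv⟩, fun u hu v hv _ => ⟨0, Nat.one_pos, hu, hv⟩, ?_,
    fun _ _ => h⟩
  intro i hi hi0
  omega

/-- T7. gluing two decompositions. -/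
theorem hasDec_glue (G : SimpleGraph V) (A₁ R₁ A₂ R₂ : Finset V) (K : ℕ)
    (h₁ : HasDec G A₁ R₁ K) (h₂ : HasDec G A₂ R₂ K)
    (hint₁ : ∀ v, v ∈ A₁ → v ∈ A₂ → v ∈ R₁) (hint₂ : ∀ v, v ∈ A₁ → v ∈ A₂ → v ∈ R₂)
    (hcross : ∀ u ∈ A₁, ∀ v ∈ A₂, G.Adj u v → u ∈ A₂ ∨ v ∈ A₁) :
    HasDec G (A₁ ∪ A₂) R₁ K := by
  obtain ⟨n₁, B₁, p₁, hn₁, hR₁, hsub₁, hcov₁, hE₁, hrun₁, hS₁⟩ := h₁
  obtain ⟨n₂, B₂, p₂, hn₂, hR₂, hsub₂, hcov₂, hE₂, hrun₂, hS₂⟩ := h₂
  set B : ℕ → Finset V := fun i => if i < n₁ then B₁ i else B₂ (i - n₁) with hB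
  set p : ℕ → ℕ := fun i => if i < n₁ then p₁ i else if i = n₁ then 0 else n₁ + p₂ (i - n₁) with hp
  have hBl : ∀ i, i < n₁ → B i = B₁ i := fun i hi => if_pos hi
  have hBr : ∀ i, B (n₁ + i) = B₂ i := fun i => by
    simp only [hB]
    rw [if_neg (by omega), Nat.add_sub_cancel_left]
  refine ⟨n₁ + n₂, B, p, by omega, by rw [hBl 0 hn₁, hR₁], ?_, ?_, ?_, ?_, ?_⟩
  · intro i hi
    rcases Nat.lt_or_ge i n₁ with h | h
    · rw [hBl i h]
      exact (hsub₁ i h).trans Finset.subset_union_left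
    · obtain ⟨j, rfl⟩ := Nat.exists_eq_add_of_le h
      rw [hBr]
      exact (hsub₂ j (by omega)).trans Finset.subset_union_right
  · intro v hv
    rcases Finset.mem_union.mp hv with h | h
    · obtain ⟨i, hi, hvi⟩ := hcov₁ v h
      exact ⟨i, by omega, by rw [hBl i hi]; exact hvi⟩
    · obtain ⟨i, hi, hvi⟩ := hcov₂ v h
      exact ⟨n₁ + i, by omega, by rw [hBr]; exact hvi⟩
  · have k1 : ∀ u ∈ A₁, ∀ v ∈ A₁, G.Adj u v → ∃ i < n₁ + n₂, u ∈ B i ∧ v ∈ B i := by
      intro u hu v hv h
      obtain ⟨i, hi, h1, h2⟩ := hE₁ u hu v hv h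
      exact ⟨i, by omega, by rw [hBl i hi]; exact h1, by rw [hBl i hi]; exact h2⟩
    have k2 : ∀ u ∈ A₂, ∀ v ∈ A₂, G.Adj u v → ∃ i < n₁ + n₂, u ∈ B i ∧ v ∈ B i := by
      intro u hu v hv h
      obtain ⟨i, hi, h1, h2⟩ := hE₂ u hu v hv h
      exact ⟨n₁ + i, by omega, by rw [hBr]; exact h1, by rw [hBr]; exact h2⟩
    intro u hu v hv h
    rcases Finset.mem_union.mp hu with hu1 | hu2 <;> rcases Finset.mem_union.mp hv with hv1 | hv2
    · exact k1 u hu1 v hv1 h
    · rcases hcross u hu1 v hv2 h with h3 | h3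
      · exact k2 u h3 v hv2 h
      · exact k1 u hu1 v h3 h
    · rcases hcross v hv1 u hu2 h.symm with h3 | h3
      · exact k2 u hu2 v h3 h
      · exact k1 u h3 v hv1 h
    · exact k2 u hu2 v hv2 h
  · intro i hi hi0
    rcases Nat.lt_or_ge i n₁ with h | h
    · have hpi : p i = p₁ i := if_pos h
      obtain ⟨h1, h2⟩ := hrun₁ i h hi0
      refine ⟨by rw [hpi]; exact h1, ?_⟩
      intro j hj v hvi hvj
      rw [hBl i h] at hvi
      rw [hBl j (hj.trans h)] at hvj
      rw [hpi, hBl _ (h1.trans h)]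
      exact h2 j hj v hvi hvj
    · obtain ⟨k, rfl⟩ := Nat.exists_eq_add_of_le h
      have hk : k < n₂ := by omega
      rcases Nat.eq_zero_or_pos k with rfl | hk0
      · have hpi : p (n₁ + 0) = 0 := by
          simp only [hp]
          rw [if_neg (by omega), if_pos (by omega)]
        rw [hpi]
        refine ⟨by omega, ?_⟩
        intro j hj v hvi hvj
        rw [hBr] at hvi
        rw [hBl j (by omega)] at hvj
        rw [hBl 0 hn₁, hR₁]
        exact hint₁ v (hsub₁ j (by omega) hvj) (hsub₂ 0 hn₂ hvi)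
      · have hpi : p (n₁ + k) = n₁ + p₂ k := by
          simp only [hp]
          rw [if_neg (by omega), if_neg (by omega), Nat.add_sub_cancel_left]
        obtain ⟨h1, h2⟩ := hrun₂ k hk hk0
        rw [hpi]
        refine ⟨by omega, ?_⟩
        intro j hj v hvi hvj
        rw [hBr] at hvi ⊢
        rcases Nat.lt_or_ge j n₁ with hj1 | hj1
        · rw [hBl j hj1] at hvj
          refine h2 0 hk0 v hvi ?_
          rw [hR₂]
          exact hint₂ v (hsub₁ j hj1 hvj) (hsub₂ k hk hvi)
        · obtain ⟨l, rfl⟩ := Nat.exists_eq_add_of_le hj1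
          rw [hBr] at hvj
          exact h2 l (by omega) v hvi hvj
  · intro i hi
    rcases Nat.lt_or_ge i n₁ with h | h
    · rw [hBl i h]
      exact hS₁ i h
    · obtain ⟨j, rfl⟩ := Nat.exists_eq_add_of_le h
      rw [hBr]
      exact hS₂ j (by omega)

private theorem dec_comp [Fintype V] (G : SimpleGraph V) (R : Finset V) (K : ℕ)
    (hR : Small G (R : Set V) K) (m : ℕ) : ∀ A : Finset V, (A \ R).card = m → R ⊆ A →
    (∀ d ∈ A \ R, ∃ R' : Finset V,
      R.filter (fun s => ∃ x ∈ cc G ((A : Set V) \ R) d, G.Adj x s) ⊆ R' ∧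
      HasDec G (Finset.univ.filter (fun v => v ∈ cc G ((A : Set V) \ R) d) ∪
        R.filter (fun s => ∃ x ∈ cc G ((A : Set V) \ R) d, G.Adj x s)) R' K) →
    HasDec G A R K := by
  induction m using Nat.strong_induction_on with
  | h m ih =>
    intro A hm hRA h
    rcases Finset.eq_empty_or_nonempty (A \ R) with he | ⟨d, hd⟩
    · have hAR : A = R := Finset.Subset.antisymm (Finset.sdiff_eq_empty_iff_subset.mp he) hRA
      rw [hAR]
      exact hasDec_refl G R K hR
    · set S : Set V := (A : Set V) \ R with hS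
      have hmemS : ∀ x, x ∈ S ↔ x ∈ A ∧ x ∉ R := fun x => by simp [hS]
      have hdS : d ∈ S := by
        rw [hmemS]
        exact Finset.mem_sdiff.mp hd
      set D : Finset V := Finset.univ.filter (fun v => v ∈ cc G S d) with hD
      have hmemD : ∀ x, x ∈ D ↔ x ∈ cc G S d := fun x => by simp [hD]
      have hDS : ∀ x ∈ D, x ∈ A ∧ x ∉ R := fun x hx =>
        (hmemS x).mp (cc_subset d ((hmemD x).mp hx))
      have hdD : d ∈ D := (hmemD d).mpr (mem_cc_self hdS)
      set A₁ : Finset V := A \ D with hA₁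
      have hRA₁ : R ⊆ A₁ := fun x hx =>
        Finset.mem_sdiff.mpr ⟨hRA hx, fun h => (hDS x h).2 hx⟩
      have hcard : (A₁ \ R).card < m := by
        rw [← hm]
        apply Finset.card_lt_card
        rw [Finset.ssubset_iff_of_subset
          (Finset.sdiff_subset_sdiff Finset.sdiff_subset (Finset.Subset.refl R))]
        refine ⟨d, hd, fun h => ?_⟩
        exact (Finset.mem_sdiff.mp (Finset.mem_sdiff.mp h).1).2 hdD
      have hcc : ∀ d' ∈ A₁ \ R, cc G ((A₁ : Set V) \ R) d' = cc G S d' := by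
        intro d' hd'
        have hd'1 := Finset.mem_sdiff.mp hd'
        have hd'2 := Finset.mem_sdiff.mp hd'1.1
        apply Set.Subset.antisymm
        · apply cc_mono
          intro x hx
          rw [hmemS]
          simp only [hA₁, Finset.coe_sdiff, Set.mem_sdiff, Finset.mem_coe] at hx
          exact ⟨hx.1.1, hx.2⟩
        · intro x hx
          refine conn_mono ?_ (conn_in_cc hx)
          intro y hy
          have hy1 := (hmemS y).mp (cc_subset d' hy)
          simp only [hA₁, Finset.coe_sdiff, Set.mem_sdiff, Finset.mem_coe]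
          refine ⟨⟨hy1.1, fun hyD => ?_⟩, hy1.2⟩
          have h1 : cc G S y = cc G S d' := cc_eq hy
          have h2 : cc G S y = cc G S d := cc_eq ((hmemD y).mp hyD)
          apply hd'2.2
          rw [hmemD, ← h2, h1]
          exact mem_cc_self ((hmemS d').mpr ⟨hd'2.1, hd'1.2⟩)
      have hA₁dec : HasDec G A₁ R K := by
        refine ih _ hcard A₁ rfl hRA₁ ?_
        intro d' hd'
        rw [hcc d' hd']
        apply h
        exact Finset.sdiff_subset_sdiff Finset.sdiff_subset (Finset.Subset.refl R) hd'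
      obtain ⟨R', hR', hdec⟩ := h d hd
      set SD := R.filter (fun s => ∃ x ∈ cc G S d, G.Adj x s) with hSD
      have hSDR : ∀ x ∈ SD, x ∈ R := fun x hx => (Finset.mem_filter.mp hx).1
      have hA : A = A₁ ∪ (D ∪ SD) := by
        ext x
        simp only [hA₁, Finset.mem_union, Finset.mem_sdiff]
        constructor
        · intro hx
          by_cases hxD : x ∈ D
          · exact Or.inr (Or.inl hxD)
          · exact Or.inl ⟨hx, hxD⟩
        · rintro (hx | hx | hx)
          · exact hx.1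
          · exact (hDS x hx).1
          · exact hRA (hSDR x hx)
      rw [hA]
      refine hasDec_glue G A₁ R (D ∪ SD) R' K hA₁dec hdec ?_ ?_ ?_
      · intro v hv1 hv2
        rcases Finset.mem_union.mp hv2 with h1 | h1
        · exact absurd h1 (Finset.mem_sdiff.mp hv1).2
        · exact hSDR v h1
      · intro v hv1 hv2
        rcases Finset.mem_union.mp hv2 with h1 | h1
        · exact absurd h1 (Finset.mem_sdiff.mp hv1).2
        · exact hR' h1
      · intro u hu v hv huv
        rcases Finset.mem_union.mp hv with h1 | h1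
        · left
          have hu1 := Finset.mem_sdiff.mp hu
          by_cases huR : u ∈ R
          · exact Finset.mem_union_right _ (Finset.mem_filter.mpr ⟨huR, v, (hmemD v).mp h1,
              huv.symm⟩)
          · exfalso
            apply hu1.2
            rw [hmemD]
            exact cc_closed ((hmemD v).mp h1) ((hmemS u).mpr ⟨hu1.1, huR⟩) huv.symm
        · right
          exact hRA₁ (hSDR v h1)

/-- T8. decomposing along the components of `A \ R`. -/
theorem hasDec_of_components [Fintype V] (G : SimpleGraph V) (A R : Finset V) (K : ℕ)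
    (hRA : R ⊆ A) (hR : Small G (R : Set V) K)
    (h : ∀ d ∈ A \ R, ∃ R' : Finset V,
      R.filter (fun s => ∃ x ∈ cc G ((A : Set V) \ R) d, G.Adj x s) ⊆ R' ∧
      HasDec G (Finset.univ.filter (fun v => v ∈ cc G ((A : Set V) \ R) d) ∪
        R.filter (fun s => ∃ x ∈ cc G ((A : Set V) \ R) d, G.Adj x s)) R' K) :
    HasDec G A R K := dec_comp G R K hR _ A rfl hRA h

end Pool.Agent.MP_8b3902_co
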