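import Pool.Agent.Lib.MP_8b3902_co.Dec

set_option autoImplicit false

namespace Pool.Agent.MP_8b3902_co

open Classical

variable {V : Type}

private theorem ds_max (G : SimpleGraph V) (S : Finset V) :
    ∃ W : Finset V, (W ⊆ S ∧ ∀ u ∈ W, ∀ w ∈ W, ¬ G.Adj u w) ∧
      ∀ W' : Finset V, W' ⊆ S → (∀ u ∈ W', ∀ w ∈ W', ¬ G.Adj u w) → W'.card ≤ W.card := by
  set P : Finset V → Prop := fun W => ∀ u ∈ W, ∀ w ∈ W, ¬ G.Adj u w with hP
  obtain ⟨W, hW, hmax⟩ := Finset.exists_max_image (S.powerset.filter P) Finset.card
    ⟨∅, Finset.mem_filter.mpr ⟨Finset.empty_mem_powerset _, fun u hu => absurd hu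
      (Finset.notMem_empty u)⟩⟩
  have hW' := Finset.mem_filter.mp hW
  exact ⟨W, ⟨Finset.mem_powerset.mp hW'.1, hW'.2⟩, fun W' h1 h2 => hmax W'
    (Finset.mem_filter.mpr ⟨Finset.mem_powerset.mpr h1, h2⟩)⟩

private theorem ds_main [Fintype V] (G : SimpleGraph V) (C : ℕ)
    (hsep : ∀ W : Finset V, ∃ X : Set V, Small G X C ∧
      ∀ u ∉ X, 2 * (W.filter (fun i => i ∈ cc G Xᶜ u)).card ≤ W.card) (m : ℕ) :
    ∀ A S : Finset V, S ⊆ A → (A \ S).card = m → Small G (S : Set V) (4 * C + 2) →
      ∃ R : Finset V, S ⊆ R ∧ HasDec G A R (5 * C + 3) := by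
  induction m using Nat.strong_induction_on with
  | h m ih =>
    intro A S hSA hm hS
    rcases Finset.eq_empty_or_nonempty (A \ S) with he | ⟨u, hu⟩
    · have hAS : A = S := Finset.Subset.antisymm (Finset.sdiff_eq_empty_iff_subset.mp he) hSA
      rw [hAS]
      exact ⟨S, Finset.Subset.refl _, hasDec_refl G S _
        (small_mono (Set.Subset.refl _) (by omega) hS)⟩
    · have hu1 := Finset.mem_sdiff.mp hu
      obtain ⟨W, ⟨hWS, hWi⟩, hWmax⟩ := ds_max G S
      obtain ⟨X, hX, hXsep⟩ := hsep W
      set R : Finset V := S ∪ A.filter (fun x => x ∈ X) ∪ {u} with hR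
      have hmemR : ∀ x, x ∈ R ↔ x ∈ S ∨ (x ∈ A ∧ x ∈ X) ∨ x = u := by
        intro x
        simp only [hR, Finset.mem_union, Finset.mem_filter, Finset.mem_singleton]
        tauto
      have hRA : R ⊆ A := by
        intro x hx
        rcases (hmemR x).mp hx with h | h | h
        · exact hSA h
        · exact h.1
        · rw [h]
          exact hu1.1
      have hRsmall : Small G (R : Set V) (5 * C + 3) := by
        have h1 := small_union (small_union hS hX) (small_singleton (G := G) u)
        refine small_mono ?_ (by omega) h1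
        intro x hx
        rcases (hmemR x).mp hx with h | h | h
        · exact Or.inl (Or.inl h)
        · exact Or.inl (Or.inr h.2)
        · exact Or.inr h
      refine ⟨R, fun x hx => (hmemR x).mpr (Or.inl hx), ?_⟩
      refine hasDec_of_components G A R _ hRA hRsmall ?_
      intro d hd
      have hd1 := Finset.mem_sdiff.mp hd
      set Q : Set V := (A : Set V) \ R with hQ
      have hmemQ : ∀ x, x ∈ Q ↔ x ∈ A ∧ x ∉ R := fun x => by simp [hQ]
      set SD := R.filter (fun s => ∃ x ∈ cc G Q d, G.Adj x s) with hSD
      set D : Finset V := Finset.univ.filter (fun v => v ∈ cc G Q d) with hD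
      have hmemD : ∀ x, x ∈ D ↔ x ∈ cc G Q d := fun x => by simp [hD]
      have hDQ : ∀ x ∈ D, x ∈ A ∧ x ∉ R := fun x hx =>
        (hmemQ x).mp (cc_subset d ((hmemD x).mp hx))
      have hQX : Q ⊆ Xᶜ := by
        intro x hx hxX
        have h1 := (hmemQ x).mp hx
        exact h1.2 ((hmemR x).mpr (Or.inr (Or.inl ⟨h1.1, hxX⟩)))
      have hdX : d ∉ X := hQX ((hmemQ d).mpr hd1)
      set E : Set V := cc G Xᶜ d with hE
      -- the attachments
      have hcore : Small G {s | s ∈ S ∧ s ∈ E} (3 * C + 1) := by
        intro J hJ hJi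
        have hW2 := hXsep d hdX
        set W1 := W.filter (fun i => i ∈ E) with hW1
        set W2 := W.filter (fun i => i ∈ X) with hW2'
        set W3 := W.filter (fun i => i ∉ E ∧ i ∉ X) with hW3
        have hWX : W2.card ≤ C := by
          apply hX
          · intro v hv
            exact (Finset.mem_filter.mp hv).2
          · intro a ha b hb
            exact hWi a (Finset.mem_filter.mp ha).1 b (Finset.mem_filter.mp hb).1
        have hWcard : W.card ≤ W1.card + W2.card + W3.card := by
          have h1 : W ⊆ W1 ∪ W2 ∪ W3 := by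
            intro x hx
            simp only [hW1, hW2', hW3, Finset.mem_union, Finset.mem_filter]
            tauto
          calc W.card ≤ (W1 ∪ W2 ∪ W3).card := Finset.card_le_card h1
            _ ≤ (W1 ∪ W2).card + W3.card := Finset.card_union_le _ _
            _ ≤ _ := Nat.add_le_add_right (Finset.card_union_le _ _) _
        have hWle : W.card ≤ 4 * C + 2 := hS W (fun v hv => hWS hv) hWi
        have hdisj : Disjoint J W3 := by
          rw [Finset.disjoint_left]
          intro x hx hx3
          exact (Finset.mem_filter.mp hx3).2.1 (hJ x hx).2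
        have hno : ∀ a ∈ J, ∀ b ∈ W3, ¬ G.Adj a b := by
          intro a ha b hb hab
          have hb1 := Finset.mem_filter.mp hb
          exact hb1.2.1 (cc_closed (hJ a ha).2 hb1.2.2 hab)
        have hmax := hWmax (J ∪ W3) (by
          intro x hx
          rcases Finset.mem_union.mp hx with h | h
          · exact (hJ x h).1
          · exact hWS (Finset.mem_filter.mp h).1) (by
          intro a ha b hb
          rcases Finset.mem_union.mp ha with h | h <;> rcases Finset.mem_union.mp hb with h' | h'
          · exact hJi a h b h'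
          · exact hno a h b h'
          · exact fun hab => hno b h' a h hab.symm
          · exact hWi a (Finset.mem_filter.mp h).1 b (Finset.mem_filter.mp h').1)
        rw [Finset.card_union_of_disjoint hdisj] at hmax
        have hW2c : 2 * W1.card ≤ W.card := hW2
        omega
      have hSDsmall : Small G (SD : Set V) (4 * C + 2) := by
        have h1 := small_union (small_union hcore hX) (small_singleton (G := G) u)
        refine small_mono ?_ (by omega) h1
        intro s hs
        obtain ⟨hsR, x, hx, hxs⟩ := Finset.mem_filter.mp hs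
        by_cases hsX : s ∈ X
        · exact Or.inl (Or.inr hsX)
        · rcases (hmemR s).mp hsR with h | h | h
          · refine Or.inl (Or.inl ⟨h, ?_⟩)
            exact cc_closed (cc_mono hQX d hx) hsX hxs
          · exact absurd h.2 hsX
          · exact Or.inr h
      have hDSD : Disjoint D SD := by
        rw [Finset.disjoint_left]
        intro x hx hx2
        exact (hDQ x hx).2 (Finset.mem_filter.mp hx2).1
      have hcard : ((D ∪ SD) \ SD).card < m := by
        have h1 : (D ∪ SD) \ SD = D := by
          rw [Finset.union_sdiff_right]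
          exact Finset.sdiff_eq_self_of_disjoint hDSD
        rw [h1, ← hm]
        apply Finset.card_lt_card
        have h2 : D ⊆ A \ S := by
          intro x hx
          have h3 := hDQ x hx
          exact Finset.mem_sdiff.mpr ⟨h3.1, fun h => h3.2 ((hmemR x).mpr (Or.inl h))⟩
        rw [Finset.ssubset_iff_of_subset h2]
        exact ⟨u, hu, fun h => (hDQ u h).2 ((hmemR u).mpr (Or.inr (Or.inr rfl)))⟩
      exact ih _ hcard (D ∪ SD) SD Finset.subset_union_right rfl hSDsmall

/-- T9. balanced separators of independence number at most `C` give a decomposition. -/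
theorem hasDec_of_sep [Fintype V] (G : SimpleGraph V) (C : ℕ)
    (hsep : ∀ W : Finset V, ∃ X : Set V, Small G X C ∧
      ∀ u ∉ X, 2 * (W.filter (fun i => i ∈ cc G Xᶜ u)).card ≤ W.card) :
    ∃ R : Finset V, HasDec G Finset.univ R (5 * C + 3) := by
  obtain ⟨R, -, hR⟩ := ds_main G C hsep _ Finset.univ ∅ (Finset.empty_subset _) rfl
    (by
      rw [Finset.coe_empty]
      exact small_empty _)
  exact ⟨R, hR⟩

end Pool.Agent.MP_8b3902_co
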