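import Pool.Agent.Lib.MP_8b3902_co.Basic

set_option autoImplicit false

namespace Pool.Agent.MP_8b3902_co

open Classical

variable {V : Type}

/-- a sequence of `n + 1` consecutively adjacent vertices of `B` -/
def SeqP (G : SimpleGraph V) (B : Set V) (x y : V) (n : ℕ) : Prop :=
  ∃ f : ℕ → V, f 0 = x ∧ f n = y ∧ (∀ i < n, G.Adj (f i) (f (i + 1))) ∧ ∀ i ≤ n, f i ∈ B

theorem seqP_of_conn {G : SimpleGraph V} {B : Set V} {x y : V} (h : Conn G B x y) :
    ∃ n, SeqP G B x y n := by
  obtain ⟨w, hw⟩ := h
  refine ⟨w.length, w.getVert, w.getVert_zero, w.getVert_length, ?_, ?_⟩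
  · intro i hi
    exact w.adj_getVert_succ hi
  · intro i _
    exact hw _ (w.getVert_mem_support i)

theorem seqP_short {G : SimpleGraph V} {B : Set V} {x y : V} {n : ℕ} {f : ℕ → V}
    (h0 : f 0 = x) (h1 : f n = y) (h2 : ∀ i < n, G.Adj (f i) (f (i + 1)))
    (h3 : ∀ i ≤ n, f i ∈ B) (i s : ℕ) (his : i + 1 + s ≤ n) (hadj : G.Adj (f i) (f (i + 1 + s))) :
    SeqP G B x y (n - s) := by
  refine ⟨fun k => if k ≤ i then f k else f (k + s), ?_, ?_, ?_, ?_⟩
  · dsimp only
    rw [if_pos (Nat.zero_le i), h0]
  · dsimp only
    rw [if_neg (by omega), Nat.sub_add_cancel (by omega), h1]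
  · intro k hk
    dsimp only
    rcases lt_trichotomy k i with hki | hki | hki
    · rw [if_pos hki.le, if_pos (by omega)]
      exact h2 k (by omega)
    · subst hki
      rw [if_pos le_rfl, if_neg (by omega)]
      exact hadj
    · rw [if_neg (by omega), if_neg (by omega)]
      have := h2 (k + s) (by omega)
      rwa [show k + s + 1 = k + 1 + s by omega] at this
  · intro k hk
    dsimp only
    split_ifs with hki
    · exact h3 k (by omega)
    · exact h3 (k + s) (by omega)

/-- T1. A shortest path inside `B` is an induced path. -/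
theorem exists_indPath {G : SimpleGraph V} {B : Set V} {x y : V} (h : Conn G B x y) :
    ∃ (n : ℕ) (f : Fin (n + 1) → V), IsIndPath G f ∧ f 0 = x ∧ f (Fin.last n) = y ∧
      ∀ i, f i ∈ B := by
  have hex := seqP_of_conn h
  obtain ⟨f, h0, h1, h2, h3⟩ := Nat.find_spec hex
  have hmin : ∀ m < Nat.find hex, ¬ SeqP G B x y m := fun m hm => Nat.find_min hex hm
  generalize Nat.find hex = n at h1 h2 h3 hmin
  have hne : ∀ i j, i < j → j ≤ n → f i ≠ f j := by
    intro i j hij hjn he
    rcases hjn.lt_or_eq with hj | hj
    · have := h2 j hj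
      rw [← he, show j + 1 = i + 1 + (j - i) by omega] at this
      exact hmin (n - (j - i)) (by omega)
        (seqP_short h0 h1 h2 h3 i (j - i) (by omega) this)
    · refine hmin i (by omega) ⟨f, h0, ?_, fun k hk => h2 k (by omega), fun k hk => h3 k (by omega)⟩
      rw [he, hj, h1]
  have hna : ∀ i j, i + 1 < j → j ≤ n → ¬ G.Adj (f i) (f j) := by
    intro i j hij hjn hadj
    rw [show j = i + 1 + (j - i - 1) by omega] at hadj
    exact hmin (n - (j - i - 1)) (by omega)
      (seqP_short h0 h1 h2 h3 i (j - i - 1) (by omega) hadj)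
  refine ⟨n, fun i => f i.val, ⟨?_, ?_⟩, ?_, ?_, ?_⟩
  · intro i j hij
    have hi := i.isLt
    have hj := j.isLt
    dsimp only at hij
    apply Fin.ext
    by_contra hne'
    rcases Nat.lt_or_gt_of_ne hne' with hlt | hlt
    · exact hne i.val j.val hlt (by omega) hij
    · exact hne j.val i.val hlt (by omega) hij.symm
  · intro i j
    have hi := i.isLt
    have hj := j.isLt
    dsimp only
    constructor
    · intro hadj
      by_contra hcon
      push Not at hcon
      rcases lt_trichotomy i.val j.val with hlt | heq | hlt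
      · exact hna i.val j.val (by omega) (by omega) hadj
      · rw [heq] at hadj
        exact G.irrefl hadj
      · exact hna j.val i.val (by omega) (by omega) hadj.symm
    · rintro (he | he)
      · rw [← he]
        exact h2 i.val (by omega)
      · rw [← he]
        exact (h2 j.val (by omega)).symm
  · exact h0
  · exact h1
  · intro i
    exact h3 i.val (by have := i.isLt; omega)

/-- T2. an initial segment of an induced path is an induced path. -/
theorem IsIndPath.take {G : SimpleGraph V} {n k : ℕ} (hk : k ≤ n) {f : Fin n → V}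
    (h : IsIndPath G f) : IsIndPath G (fun i : Fin k => f (Fin.castLE hk i)) := by
  refine ⟨fun i j hij => ?_, fun i j => ?_⟩
  · exact Fin.castLE_injective hk (h.1 hij)
  · rw [h.2]
    rfl

/-- T3. the inductive form gives an induced path. -/
theorem HP.indPath {G : SimpleGraph V} {n : ℕ} {v : V} {A : Set V} (h : HP G n v A) :
    ∃ f : Fin (n + 1) → V, IsIndPath G f ∧ f 0 = v ∧ ∀ i, i ≠ 0 → f i ∈ A := by
  induction h with
  | zero v A hv =>
    refine ⟨fun _ => v, ⟨?_, ?_⟩, rfl, ?_⟩
    · intro i j _
      apply Fin.ext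
      have hi := i.isLt
      have hj := j.isLt
      omega
    · intro i j
      constructor
      · intro hadj
        exact absurd hadj (G.irrefl)
      · intro hh
        have hi := i.isLt
        have hj := j.isLt
        omega
    · intro i hi
      refine absurd (Fin.ext ?_) hi
      have hi := i.isLt
      rw [Fin.val_zero]
      omega
  | succ n v w A A' hv hw hadj hsub hno _ ih =>
    obtain ⟨f, ⟨hf1, hf2⟩, hf0, hfA⟩ := ih
    have hfall : ∀ i, f i ∈ A := by
      intro i
      by_cases hi : i = 0
      · rw [hi, hf0]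
        exact hw
      · exact hsub (hfA i hi)
    have hvf : ∀ j : Fin (n + 1), G.Adj v (f j) ↔ j.val = 0 := by
      intro j
      constructor
      · intro hh
        by_contra hj
        exact hno _ (hfA j (fun h => hj (by rw [h]; rfl))) hh
      · intro hj
        have : j = 0 := Fin.ext hj
        rw [this, hf0]
        exact hadj
    refine ⟨Fin.cons v f, ⟨?_, ?_⟩, rfl, ?_⟩
    · rw [Fin.cons_injective_iff]
      refine ⟨?_, hf1⟩
      rintro ⟨i, hi⟩
      exact hv (hi ▸ hfall i)
    · intro i j
      refine Fin.cases ?_ (fun i => ?_) i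
      · refine Fin.cases ?_ (fun j => ?_) j
        · rw [Fin.cons_zero]
          constructor
          · intro hh
            exact absurd hh G.irrefl
          · intro hh
            simp at hh
        · rw [Fin.cons_zero, Fin.cons_succ, hvf, Fin.val_succ, Fin.val_zero]
          omega
      · refine Fin.cases ?_ (fun j => ?_) j
        · rw [Fin.cons_zero, Fin.cons_succ, G.adj_comm, hvf, Fin.val_succ, Fin.val_zero]
          omega
        · rw [Fin.cons_succ, Fin.cons_succ, hf2, Fin.val_succ, Fin.val_succ]
          omega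
    · intro i hi
      obtain ⟨j, rfl⟩ := Fin.exists_succ_eq.2 hi
      rw [Fin.cons_succ]
      exact hfall j

end Pool.Agent.MP_8b3902_co
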