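import Pool.Agent.Lib.MP_8b3902_co.Path

set_option autoImplicit false

namespace Pool.Agent.MP_8b3902_co

open Classical

variable {V : Type}

theorem conn_of_indPath {G : SimpleGraph V} {n : ℕ} {f : Fin (n + 1) → V} (hf : IsIndPath G f)
    {C : Set V} (hC : ∀ i, f i ∈ C) (j : Fin (n + 1)) : Conn G C (f 0) (f j) := by
  obtain ⟨j, hj⟩ := j
  induction j with
  | zero => exact conn_refl (hC 0)
  | succ j ih =>
    refine conn_trans (ih (by omega)) (conn_adj (hC _) (hC _) ?_)
    rw [hf.2]
    left
    rfl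

/-- vertices adjacent to at least `t` members of an independent set `H`. -/
theorem small_common {G : SimpleGraph V} {t m : ℕ} (hK : Kfree G t) (H : Finset V)
    (hH : H.card = m) (hind : ∀ u ∈ H, ∀ w ∈ H, ¬ G.Adj u w) :
    Small G {b | t ≤ (H.filter (fun h => G.Adj b h)).card} (2 ^ m * t) := by
  intro Q hQ hQind
  by_contra hcard
  push Not at hcard
  obtain ⟨J, hJ, hJcard⟩ := Finset.exists_lt_card_fiber_of_mul_lt_card_of_maps_to
    (s := Q) (t := H.powerset) (f := fun b => H.filter (fun h => G.Adj b h)) (n := t)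
    (fun b _ => by simp [Finset.filter_subset]) (by rw [Finset.card_powerset, hH]; exact hcard)
  set F := Q.filter (fun b => H.filter (fun h => G.Adj b h) = J) with hF
  have hne : F.Nonempty := by
    rw [← Finset.card_pos]; omega
  obtain ⟨b, hb⟩ := hne
  have hJt : t ≤ J.card := by
    have h1 := hQ b (Finset.mem_filter.1 hb).1
    rw [← (Finset.mem_filter.1 hb).2]
    exact h1
  obtain ⟨P, hPJ, hPc⟩ := Finset.exists_subset_card_eq hJt
  obtain ⟨Q', hQF, hQc⟩ := Finset.exists_subset_card_eq hJcard.le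
  have hJH : J ⊆ H := Finset.mem_powerset.1 hJ
  obtain ⟨p, hp, q, hq, hpq⟩ := hK P Q' hPc hQc
    (fun u hu w hw => hind u (hJH (hPJ hu)) w (hJH (hPJ hw)))
    (fun u hu w hw => hQind u (Finset.mem_filter.1 (hQF hu)).1 w (Finset.mem_filter.1 (hQF hw)).1)
  have h1 := (Finset.mem_filter.1 (hQF hq)).2
  have h2 : p ∈ H.filter (fun h => G.Adj q h) := by rw [h1]; exact hPJ hp
  exact hpq (Finset.mem_filter.1 h2).2.symm

/-- T4. The trap lemma: the trapping vertices form a set of independence number at most `t * k`. -/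
theorem trap_small [Fintype V] {G : SimpleGraph V} {t k : ℕ} (hK : Kfree G t) (hP : Pfree G k)
    {A : Set V} {I : Finset V} {c D c1 E : ℕ} (hI : I.Nonempty) (hD : 2 ≤ D)
    (hE : 4 * (t * k) ≤ E) (hc : (t * k) * c1 + 2 ^ (t * k) * t ≤ c) (hC : Conc G A I c D) :
    Small G {v | ¬ Ntr G A (nb G v) I c1 E} (t * k) := by
  intro S hS hSind
  by_contra hcard
  push Not at hcard
  have ht : 0 < t := by
    rcases Nat.eq_zero_or_pos t with rfl | h
    · obtain ⟨p, hp, _⟩ := hK ∅ ∅ rfl rfl (by simp) (by simp)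
      simp at hp
    · exact h
  have hk : 0 < k := by
    rcases Nat.eq_zero_or_pos k with rfl | h
    · exact absurd (⟨fun i => i.elim0, fun i => i.elim0⟩ : IsIndPath G (fun i : Fin 0 => i.elim0))
        (hP _)
    · exact h
  set m := t * k with hm
  have hmpos : 0 < m := Nat.mul_pos ht hk
  obtain ⟨H, hHS, hHcard⟩ := Finset.exists_subset_card_eq hcard.le
  have hHind : ∀ u ∈ H, ∀ w ∈ H, ¬ G.Adj u w := fun u hu w hw => hSind u (hHS hu) w (hHS hw)
  -- the sets `X_h`
  have hX : ∀ h : V, ∃ X : Set V, h ∈ H → (Small G X c1 ∧ ∀ u ∈ A \ (nb G h ∪ X),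
      E * (I.filter (fun i => i ∈ cc G (A \ (nb G h ∪ X)) u)).card ≤ I.card) := by
    intro h
    by_cases hh : h ∈ H
    · have h1 : ¬ Ntr G A (nb G h) I c1 E := hS h (hHS hh)
      unfold Ntr at h1
      push Not at h1
      obtain ⟨X, hX1, hX2⟩ := h1
      exact ⟨X, fun _ => ⟨hX1, hX2⟩⟩
    · exact ⟨∅, fun h => absurd h hh⟩
  choose X hX using hX
  set Z : Set V := {b | t ≤ (H.filter (fun h => G.Adj b h)).card} with hZ
  have hZs : Small G Z (2 ^ m * t) := small_common hK H hHcard hHind
  set Y : Set V := (⋃ h ∈ H, X h) ∪ Z with hY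
  have hYs : Small G Y c := by
    refine small_mono le_rfl hc (small_union ?_ hZs)
    rw [← hHcard]
    exact small_biUnion H X c1 (fun h hh => (hX h hh).1)
  obtain ⟨u, hu, hbig⟩ := hC Y hYs
  set B := cc G (A \ Y) u with hB
  set IB := I.filter (fun i => i ∈ B) with hIB
  have hsum : IB.card + (I.filter (fun i => i ∉ B)).card = I.card :=
    Finset.card_filter_add_card_filter_not (s := I) (fun i => i ∈ B)
  have hIpos : 0 < I.card := hI.card_pos
  have hhalf : I.card ≤ 2 * IB.card := by
    have : 2 * (I.filter (fun i => i ∉ B)).card ≤ I.card :=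
      le_trans (Nat.mul_le_mul_right _ hD) hbig
    omega
  have hIBpos : 0 < IB.card := by omega
  -- bad pairs
  have hpair : ∀ h ∈ H, E * ((IB ×ˢ IB).filter (fun p => Conn G (B \ nb G h) p.1 p.2)).card ≤
      I.card * IB.card := by
    intro h hh
    have h1 : ((IB ×ˢ IB).filter (fun p => Conn G (B \ nb G h) p.1 p.2)).card ≤
        ∑ x ∈ IB, (IB.filter (fun y => Conn G (B \ nb G h) x y)).card := by
      rw [Finset.card_filter, Finset.sum_product]
      refine le_of_eq (Finset.sum_congr rfl (fun x _ => ?_))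
      rw [Finset.card_filter]
    have h2 : ∀ x ∈ IB, E * (IB.filter (fun y => Conn G (B \ nb G h) x y)).card ≤ I.card := by
      intro x hx
      by_cases hxh : x ∈ nb G h
      · have : IB.filter (fun y => Conn G (B \ nb G h) x y) = ∅ := by
          refine Finset.filter_eq_empty_iff.2 (fun y _ hc => ?_)
          exact (conn_left hc).2 hxh
        rw [this]
        simp
      · have hxB : x ∈ B := (Finset.mem_filter.1 hx).2
        have hxA : x ∈ A \ Y := cc_subset u hxB
        have hsub : B \ nb G h ⊆ A \ (nb G h ∪ X h) := fun z hz => by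
          have h3 := cc_subset u hz.1
          refine ⟨h3.1, fun h4 => ?_⟩
          rcases h4 with h4 | h4
          · exact hz.2 h4
          · exact h3.2 (Or.inl (Set.mem_biUnion hh h4))
        have hxA' : x ∈ A \ (nb G h ∪ X h) := hsub ⟨hxB, hxh⟩
        refine le_trans (Nat.mul_le_mul_left _ (Finset.card_le_card ?_)) ((hX h hh).2 x hxA')
        intro y hy
        rw [Finset.mem_filter] at hy ⊢
        exact ⟨(Finset.mem_filter.1 hy.1).1, conn_mono hsub hy.2⟩
    calc E * _ ≤ E * ∑ x ∈ IB, (IB.filter (fun y => Conn G (B \ nb G h) x y)).card :=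
          Nat.mul_le_mul_left _ h1
      _ = ∑ x ∈ IB, E * (IB.filter (fun y => Conn G (B \ nb G h) x y)).card := by
          rw [Finset.mul_sum]
      _ ≤ ∑ x ∈ IB, I.card := Finset.sum_le_sum h2
      _ = I.card * IB.card := by rw [Finset.sum_const, smul_eq_mul, mul_comm]
  -- a good pair
  obtain ⟨x, hx, y, hy, hxy⟩ : ∃ x ∈ IB, ∃ y ∈ IB, ∀ h ∈ H, ¬ Conn G (B \ nb G h) x y := by
    by_contra hcon
    push Not at hcon
    have hcov : IB ×ˢ IB ⊆ H.biUnion
        (fun h => (IB ×ˢ IB).filter (fun p => Conn G (B \ nb G h) p.1 p.2)) := by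
      intro p hp
      rw [Finset.mem_product] at hp
      obtain ⟨h, hh, hconn⟩ := hcon p.1 hp.1 p.2 hp.2
      rw [Finset.mem_biUnion]
      exact ⟨h, hh, Finset.mem_filter.2 ⟨Finset.mem_product.2 hp, hconn⟩⟩
    have h1 : IB.card * IB.card ≤
        ∑ h ∈ H, ((IB ×ˢ IB).filter (fun p => Conn G (B \ nb G h) p.1 p.2)).card := by
      rw [← Finset.card_product]
      exact (Finset.card_le_card hcov).trans Finset.card_biUnion_le
    have h2 : E * (IB.card * IB.card) ≤ m * (I.card * IB.card) := by
      calc E * (IB.card * IB.card) ≤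
          E * ∑ h ∈ H, ((IB ×ˢ IB).filter (fun p => Conn G (B \ nb G h) p.1 p.2)).card :=
            Nat.mul_le_mul_left _ h1
        _ = ∑ h ∈ H, E * ((IB ×ˢ IB).filter (fun p => Conn G (B \ nb G h) p.1 p.2)).card := by
            rw [Finset.mul_sum]
        _ ≤ ∑ _h ∈ H, I.card * IB.card := Finset.sum_le_sum hpair
        _ = m * (I.card * IB.card) := by rw [Finset.sum_const, smul_eq_mul, hHcard]
    have h3 : 4 * m * (IB.card * IB.card) ≤ m * (I.card * IB.card) :=
      le_trans (Nat.mul_le_mul_right _ hE) h2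
    have h4 : m * (I.card * IB.card) ≤ m * (2 * IB.card * IB.card) :=
      Nat.mul_le_mul_left _ (Nat.mul_le_mul_right _ hhalf)
    have h5 : 0 < m * (IB.card * IB.card) := by positivity
    nlinarith
  have hxB : x ∈ B := (Finset.mem_filter.1 hx).2
  have hyB : y ∈ B := (Finset.mem_filter.1 hy).2
  obtain ⟨n, f, hf, hf0, hfn, hfB⟩ := exists_indPath (cc_conn hxB hyB)
  -- every closed neighbourhood is met
  have hmeet : ∀ h : V, ∃ i : Fin (n + 1), h ∈ H → f i ∈ nb G h := by
    intro h
    by_cases hh : h ∈ H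
    · by_contra hcon
      push Not at hcon
      refine hxy h hh ?_
      have := conn_of_indPath hf (C := B \ nb G h) (fun i => ⟨hfB i, (hcon i).2⟩) (Fin.last n)
      rwa [hf0, hfn] at this
    · exact ⟨0, fun h => absurd h hh⟩
  choose g hg using hmeet
  have hfib : ∀ i ∈ (Finset.univ : Finset (Fin (n + 1))),
      (H.filter (fun h => g h = i)).card ≤ t := by
    intro i _
    have hnotZ : f i ∉ Z := fun hz => (cc_subset u (hfB i)).2 (Or.inr hz)
    have h1 : H.filter (fun h => g h = i) ⊆
        insert (f i) (H.filter (fun h => G.Adj (f i) h)) := by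
      intro h hh
      rw [Finset.mem_filter] at hh
      have h2 := hg h hh.1
      rw [hh.2] at h2
      rcases h2 with h2 | h2
      · rw [h2]; exact Finset.mem_insert_self _ _
      · exact Finset.mem_insert_of_mem (Finset.mem_filter.2 ⟨hh.1, h2.symm⟩)
    refine (Finset.card_le_card h1).trans ((Finset.card_insert_le _ _).trans ?_)
    have h3 : ¬ t ≤ (H.filter (fun h => G.Adj (f i) h)).card := hnotZ
    omega
  have hle : H.card ≤ t * (Finset.univ : Finset (Fin (n + 1))).card :=
    Finset.card_le_mul_card_image_of_maps_to (fun _ _ => Finset.mem_univ _) t hfib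
  rw [hHcard, Finset.card_univ, Fintype.card_fin, hm] at hle
  have hkn : k ≤ n + 1 := Nat.le_of_mul_le_mul_left hle ht
  exact hP _ (hf.take hkn)

end Pool.Agent.MP_8b3902_co
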