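import Mathlib

set_option autoImplicit false

namespace Pool.Agent.MP_8b3902_co

private theorem knn_supp {m : ℕ} (T : SimpleGraph (Fin m)) (P : Set (Fin m)) {a b : P}
    (w : (T.induce P).Walk a b) (x : Fin m)
    (hx : x ∈ (w.map (SimpleGraph.Embedding.induce (G := T) P).toHom).support) : x ∈ P := by
  rw [SimpleGraph.Walk.support_map, List.mem_map] at hx
  obtain ⟨y, _, rfl⟩ := hx
  exact y.2

private theorem knn_inner {m : ℕ} (T : SimpleGraph (Fin m)) (P : Set (Fin m))
    (hP : (T.induce P).Connected) {s p : Fin m} (hs : s ∈ P) (hp : p ∈ P) :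
    ∃ w : T.Walk s p, w.IsPath ∧ ∀ x ∈ w.support, x ∈ P := by
  classical
  obtain ⟨w⟩ := hP.preconnected ⟨s, hs⟩ ⟨p, hp⟩
  have hpath : w.bypass.IsPath := w.bypass_isPath
  refine ⟨w.bypass.map (SimpleGraph.Embedding.induce (G := T) P).toHom,
    hpath.map (f := (SimpleGraph.Embedding.induce (G := T) P).toHom) Subtype.val_injective, ?_⟩
  exact fun x hx => knn_supp T P w.bypass x hx

/-- the path from a point of `P` to the root goes through the top of `P`. -/
private theorem knn_split {m : ℕ} (T : SimpleGraph (Fin m)) (hT : T.IsTree) (P : Set (Fin m))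
    (hP : (T.induce P).Connected) (r : Fin m) {s p : Fin m} (hs : s ∈ P) (hp : p ∈ P)
    (hmin : ∀ x ∈ P, T.dist p r ≤ T.dist x r) :
    ∃ (w₁ : T.Walk s p) (w₂ : T.Walk p r), (w₁.append w₂).IsPath ∧ (∀ x ∈ w₁.support, x ∈ P) ∧
      w₂.length = T.dist p r := by
  classical
  obtain ⟨w₁, h1, h2⟩ := knn_inner T P hP hs hp
  obtain ⟨w₂, h3, h4⟩ := hT.connected.exists_path_of_dist p r
  refine ⟨w₁, w₂, ?_, h2, h4⟩
  rw [SimpleGraph.Walk.isPath_def, SimpleGraph.Walk.support_append, List.nodup_append]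
  refine ⟨h1.support_nodup, h3.support_nodup.sublist (List.tail_sublist _), ?_⟩
  intro x hx y hy hxy
  subst hxy
  have hxP : x ∈ P := h2 x hx
  have hx2 : x ∈ w₂.support := List.mem_of_mem_tail hy
  have hne : x ≠ p := by
    rintro rfl
    have h5 := h3.support_nodup
    rw [← SimpleGraph.Walk.cons_tail_support] at h5
    exact (List.nodup_cons.mp h5).1 hy
  have h6 : T.dist x r ≤ (w₂.dropUntil x hx2).length := SimpleGraph.dist_le _
  have h7 : (w₂.takeUntil x hx2).length + (w₂.dropUntil x hx2).length = w₂.length := by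
    rw [← SimpleGraph.Walk.length_append, SimpleGraph.Walk.take_spec]
  have h8 : 0 < (w₂.takeUntil x hx2).length := by
    rcases Nat.eq_zero_or_pos (w₂.takeUntil x hx2).length with h0 | h0
    · exact absurd (SimpleGraph.Walk.eq_of_length_eq_zero h0).symm hne
    · exact h0
  have h9 := hmin x hxP
  omega

private theorem knn_top {m : ℕ} (T : SimpleGraph (Fin m)) (hT : T.IsTree) (P Q : Set (Fin m))
    (hP : (T.induce P).Connected) (hQ : (T.induce Q).Connected) (r : Fin m) {s p q : Fin m}
    (hsP : s ∈ P) (hsQ : s ∈ Q) (hp : p ∈ P) (hq : q ∈ Q)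
    (hpmin : ∀ x ∈ P, T.dist p r ≤ T.dist x r) (hqmin : ∀ x ∈ Q, T.dist q r ≤ T.dist x r)
    (hpq : T.dist q r ≤ T.dist p r) : p ∈ Q := by
  obtain ⟨w₁, w₂, h1, -, h3⟩ := knn_split T hT P hP r hsP hp hpmin
  obtain ⟨u₁, u₂, k1, k2, k3⟩ := knn_split T hT Q hQ r hsQ hq hqmin
  have heq : w₁.append w₂ = u₁.append u₂ := by
    have := (hT.isAcyclic.subsingleton_path s r).elim ⟨_, h1⟩ ⟨_, k1⟩
    exact congrArg Subtype.val this
  have hlen : w₁.length + w₂.length = u₁.length + u₂.length := by
    rw [← SimpleGraph.Walk.length_append, ← SimpleGraph.Walk.length_append, heq]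
  have hle : w₁.length ≤ u₁.length := by omega
  have hg : (w₁.append w₂).getVert w₁.length = p := by
    rw [SimpleGraph.Walk.getVert_append]
    simp
  rw [heq, SimpleGraph.Walk.getVert_append] at hg
  split_ifs at hg with hlt
  · rw [← hg]
    exact k2 _ (SimpleGraph.Walk.getVert_mem_support _ _)
  · have h0 : w₁.length - u₁.length = 0 := by omega
    rw [h0, SimpleGraph.Walk.getVert_zero] at hg
    rw [← hg]
    exact hq

/-- T11. Every tree decomposition of `K_{n,n}` has a bag with at least `n` vertices. (Two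
disjoint subtrees `T_a`, `T_a'` of one side: every subtree `T_b` of the other side contains the
first edge of the path between them. Otherwise the subtrees of one side pairwise intersect: Helly.)
-/
theorem knn_bag (n m : ℕ) (T : SimpleGraph (Fin m)) (B : Fin m → Finset (Fin n ⊕ Fin n))
    (hT : T.IsTree)
    (hE : ∀ u v : Fin n ⊕ Fin n, (completeBipartiteGraph (Fin n) (Fin n)).Adj u v →
      ∃ t, u ∈ B t ∧ v ∈ B t)
    (hC : ∀ v : Fin n ⊕ Fin n, (T.induce {t : Fin m | v ∈ B t}).Connected) :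
    ∃ t, n ≤ (B t).card := by
  classical
  obtain ⟨r⟩ := hT.connected.nonempty
  rcases Nat.eq_zero_or_pos n with rfl | hn
  · exact ⟨r, Nat.zero_le _⟩
  have htop : ∀ v : Fin n ⊕ Fin n, ∃ p : Fin m, v ∈ B p ∧ ∀ x, v ∈ B x → T.dist p r ≤ T.dist x r := by
    intro v
    obtain ⟨⟨t, ht⟩⟩ := (hC v).nonempty
    obtain ⟨p, hp, hmin⟩ := Finset.exists_min_image (Finset.univ.filter fun t => v ∈ B t)
      (fun t => T.dist t r) ⟨t, by simpa using ht⟩
    refine ⟨p, by simpa using hp, fun x hx => hmin x (by simpa using hx)⟩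
  choose top ht hmin using htop
  have hne : (Finset.univ : Finset (Fin n ⊕ Fin n)).Nonempty :=
    ⟨Sum.inl ⟨0, hn⟩, Finset.mem_univ _⟩
  obtain ⟨v, -, hv⟩ := Finset.exists_max_image Finset.univ (fun v => T.dist (top v) r) hne
  have key : ∀ u, (completeBipartiteGraph (Fin n) (Fin n)).Adj v u → u ∈ B (top v) := by
    intro u hu
    obtain ⟨s, hs1, hs2⟩ := hE v u hu
    exact knn_top T hT {t | v ∈ B t} {t | u ∈ B t} (hC v) (hC u) r hs1 hs2 (ht v) (ht u)
      (hmin v) (hmin u) (hv u (Finset.mem_univ _))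
  refine ⟨top v, ?_⟩
  rcases v with a | a
  · have h1 : (Finset.univ.image (Sum.inr : Fin n → Fin n ⊕ Fin n)) ⊆ B (top (Sum.inl a)) := by
      intro u hu
      obtain ⟨b, -, rfl⟩ := Finset.mem_image.mp hu
      exact key _ (by simp)
    have h2 := Finset.card_le_card h1
    rwa [Finset.card_image_of_injective _ Sum.inr_injective, Finset.card_univ,
      Fintype.card_fin] at h2
  · have h1 : (Finset.univ.image (Sum.inl : Fin n → Fin n ⊕ Fin n)) ⊆ B (top (Sum.inr a)) := by
      intro u hu
      obtain ⟨b, -, rfl⟩ := Finset.mem_image.mp hu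
      exact key _ (by simp)
    have h2 := Finset.card_le_card h1
    rwa [Finset.card_image_of_injective _ Sum.inl_injective, Finset.card_univ,
      Fintype.card_fin] at h2

end Pool.Agent.MP_8b3902_co
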