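import Pool.Agent.Lib.MP_8b3902_co.Trap
import Pool.Agent.Lib.MP_8b3902_co.Break

set_option autoImplicit false

namespace Pool.Agent.MP_8b3902_co

open Classical

variable {V : Type}

/-- the level needed for `n` further steps. -/
def par (m E N t : ℕ) : ℕ → ℕ
  | 0 => 0
  | n + 1 => N * (E * (m * (par m E N t n + m) + 2 ^ m * t + par m E N t n + m)) + m +
      par m E N t n

theorem filter_card_compl {I : Finset V} (S : Set V) :
    (I.filter (fun i => i ∈ S)).card + (I.filter (fun i => i ∉ S)).card = I.card :=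
  Finset.card_filter_add_card_filter_not (s := I) (fun i => i ∈ S)

/-- two subsets of `I` of total size more than `I` meet. -/
theorem exists_common {I : Finset V} {S T : Set V}
    (h : I.card < (I.filter (fun i => i ∈ S)).card + (I.filter (fun i => i ∈ T)).card) :
    ∃ i ∈ I, i ∈ S ∧ i ∈ T := by
  by_contra hcon
  push Not at hcon
  have hdisj : Disjoint (I.filter (fun i => i ∈ S)) (I.filter (fun i => i ∈ T)) := by
    rw [Finset.disjoint_left]
    intro i hi hi'
    exact hcon i (Finset.mem_filter.1 hi).1 (Finset.mem_filter.1 hi).2 (Finset.mem_filter.1 hi').2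
  have h1 : ((I.filter (fun i => i ∈ S)) ∪ (I.filter (fun i => i ∈ T))).card ≤ I.card :=
    Finset.card_le_card (by
      intro i hi
      rcases Finset.mem_union.1 hi with h | h
      · exact (Finset.mem_filter.1 h).1
      · exact (Finset.mem_filter.1 h).1)
  rw [Finset.card_union_of_disjoint hdisj] at h1
  omega

/-- Restriction to the large component `R = cc (A \ X₀) r`, keeping the reference set `I`. -/
theorem conc_restrict {G : SimpleGraph V} {A X₀ A₁ : Set V} {I : Finset V} {r : V}
    {c c₀ c₁ D : ℕ} (hI : I.Nonempty) (hD : 3 ≤ D) (hc : c₀ + c₁ ≤ c)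
    (hX₀ : Small G X₀ c₀) (hC : Conc G A I c D)
    (hR : D * (I.filter (fun i => i ∉ cc G (A \ X₀) r)).card ≤ I.card)
    (hRA : cc G (A \ X₀) r ⊆ A₁) : Conc G A₁ I c₁ D := by
  intro X hX
  obtain ⟨u, hu, hK⟩ := hC (X ∪ X₀)
    (small_mono le_rfl (by omega) (small_union hX hX₀))
  have hsub : A \ (X ∪ X₀) ⊆ A \ X₀ := fun x hx => ⟨hx.1, fun h => hx.2 (Or.inr h)⟩
  have hpos : 0 < I.card := hI.card_pos
  -- the big component meets `R`
  obtain ⟨i, hiI, hiR, hiK⟩ : ∃ i ∈ I, i ∈ cc G (A \ X₀) r ∧ i ∈ cc G (A \ (X ∪ X₀)) u := by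
    apply exists_common
    have h1 := filter_card_compl (I := I) (cc G (A \ X₀) r)
    have h2 := filter_card_compl (I := I) (cc G (A \ (X ∪ X₀)) u)
    have h3 : 3 * (I.filter (fun i => i ∉ cc G (A \ X₀) r)).card ≤ I.card :=
      le_trans (Nat.mul_le_mul_right _ hD) hR
    have h4 : 3 * (I.filter (fun i => i ∉ cc G (A \ (X ∪ X₀)) u)).card ≤ I.card :=
      le_trans (Nat.mul_le_mul_right _ hD) hK
    omega
  have hKR : cc G (A \ (X ∪ X₀)) u ⊆ cc G (A \ X₀) r := by
    refine subset_cc_of_conn ((cc_subset u).trans hsub) (fun x hx y hy => cc_conn hx hy) hiK hiR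
  have huK : u ∈ cc G (A \ (X ∪ X₀)) u := mem_cc_self hu
  have hKA : cc G (A \ (X ∪ X₀)) u ⊆ A₁ \ X := fun x hx =>
    ⟨hRA (hKR hx), fun h => ((cc_subset u) hx).2 (Or.inl h)⟩
  refine ⟨u, hKA huK, le_trans (Nat.mul_le_mul_left _ (Finset.card_le_card ?_)) hK⟩
  intro i hi
  rw [Finset.mem_filter] at hi ⊢
  refine ⟨hi.1, fun h => hi.2 ?_⟩
  exact subset_cc_of_conn hKA (fun x hx y hy => cc_conn hx hy) huK (mem_cc_self (hKA huK)) h

/-- The same for `Ntr`. -/
theorem ntr_restrict {G : SimpleGraph V} {A X₀ A₁ Y : Set V} {I : Finset V} {r : V}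
    {b c₀ b₁ D E : ℕ} (hDE : E ≤ D) (hb : c₀ + b₁ ≤ b)
    (hX₀ : Small G X₀ c₀) (hN : Ntr G A Y I b E)
    (hR : D * (I.filter (fun i => i ∉ cc G (A \ X₀) r)).card ≤ I.card)
    (hRA : cc G (A \ X₀) r ⊆ A₁) : Ntr G A₁ Y I b₁ E := by
  intro X hX
  obtain ⟨u, hu, hK⟩ := hN (X ∪ X₀)
    (small_mono le_rfl (by omega) (small_union hX hX₀))
  have hsub : A \ (Y ∪ (X ∪ X₀)) ⊆ A \ X₀ := fun x hx =>
    ⟨hx.1, fun h => hx.2 (Or.inr (Or.inr h))⟩
  obtain ⟨i, hiK, hiR⟩ : ∃ i ∈ cc G (A \ (Y ∪ (X ∪ X₀))) u, i ∈ cc G (A \ X₀) r := by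
    by_contra hcon
    push Not at hcon
    have h1 : (I.filter (fun i => i ∈ cc G (A \ (Y ∪ (X ∪ X₀))) u)).card ≤
        (I.filter (fun i => i ∉ cc G (A \ X₀) r)).card := by
      apply Finset.card_le_card
      intro i hi
      rw [Finset.mem_filter] at hi ⊢
      exact ⟨hi.1, hcon i hi.2⟩
    have h2 := Nat.mul_le_mul hDE h1
    omega
  have hKR : cc G (A \ (Y ∪ (X ∪ X₀))) u ⊆ cc G (A \ X₀) r :=
    subset_cc_of_conn ((cc_subset u).trans hsub) (fun x hx y hy => cc_conn hx hy) hiK hiR
  have huK : u ∈ cc G (A \ (Y ∪ (X ∪ X₀))) u := mem_cc_self hu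
  have hKA : cc G (A \ (Y ∪ (X ∪ X₀))) u ⊆ A₁ \ (Y ∪ X) := fun x hx =>
    ⟨hRA (hKR hx), fun h => by
      rcases h with h | h
      · exact ((cc_subset u) hx).2 (Or.inl h)
      · exact ((cc_subset u) hx).2 (Or.inr (Or.inl h))⟩
  refine ⟨u, hKA huK, lt_of_lt_of_le hK (Nat.mul_le_mul_left _ (Finset.card_le_card ?_))⟩
  intro i hi
  rw [Finset.mem_filter] at hi ⊢
  exact ⟨hi.1, subset_cc_of_conn hKA (fun x hx y hy => cc_conn hx hy) huK
    (mem_cc_self (hKA huK)) hi.2⟩

/-- The growing lemma. -/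
theorem grow [Fintype V] {G : SimpleGraph V} {t k N E : ℕ} (hK : Kfree G t) (hP : Pfree G k)
    (hE : 4 * (t * k) ≤ E) (hE2 : 2 ≤ E) (hN : E * E ^ N ≤ (E + 1) ^ N) (n : ℕ) :
    ∀ (A : Set V) (I : Finset V) (v : V), (∀ x ∈ A, ∀ y ∈ A, Conn G A x y) → I.Nonempty →
      Conc G A I (par (t * k) E N t n) (E + 1) →
      (∀ x ∈ A, Ntr G A (nb G x) I (par (t * k) E N t n) E) → v ∉ A →
      Ntr G A (nb G v) I (par (t * k) E N t n) E → (∃ w ∈ A, G.Adj v w) → HP G n v A := by
  induction n with
  | zero => intro A I v _ _ _ _ hv _ _; exact HP.zero v A hv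
  | succ n ih =>
    intro A I v hA hI hC hNA hv hNv hvw
    set m := t * k with hm
    set q := par m E N t n with hq
    set c' := m * (q + m) + 2 ^ m * t + q + m with hc'
    have hpar : par m E N t (n + 1) = N * (E * c') + m + q := rfl
    rw [hpar] at hC hNA hNv
    -- breaking
    have hNv' : Ntr G A (nb G v) I (N * (E * c')) E := fun X hX =>
      hNv X (small_mono le_rfl (by omega) hX)
    obtain ⟨X', u, hX', hu, hbig, hconc⟩ := break_lemma G A (nb G v) I (N * (E * c')) c' (E + 1) E N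
      (by omega) (by omega) (by simpa using hN) le_rfl hNv'
    set A' := cc G (A \ (nb G v ∪ X')) u with hA'
    set I' := I.filter (fun i => i ∈ A') with hI'
    have hI'ne : I'.Nonempty := by
      rw [← Finset.card_pos]
      by_contra h0
      have : I'.card = 0 := by omega
      rw [this] at hbig
      omega
    have hI'I : I' ⊆ I := Finset.filter_subset _ _
    -- trapping vertices of the new region
    set T' : Set V := {w | ¬ Ntr G A' (nb G w) I' (q + m) E} with hT'
    have hT'small : Small G T' m := trap_small hK hP hI'ne (by omega) hE (by rw [← hm]; omega) hconc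
    obtain ⟨w', hw', hw'big⟩ := hconc T' (small_mono le_rfl (by omega) hT'small)
    set A'' := cc G (A' \ T') w' with hA''
    -- the haven side `R`
    obtain ⟨r, hr, hrbig⟩ := hC (X' ∪ T') (small_mono le_rfl (by omega) (small_union hX' hT'small))
    set R := cc G (A \ (X' ∪ T')) r with hR
    have hX'T' : Small G (X' ∪ T') (N * (E * c') + m) := small_union hX' hT'small
    by_cases hub : ∃ w ∈ R, G.Adj v w
    · -- hub case
      obtain ⟨w₀, hw₀R, hw₀⟩ := hub
      have hA''sub : A'' ⊆ A \ (X' ∪ T') := fun x hx => by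
        have h1 := cc_subset w' hx
        have h2 := cc_subset u h1.1
        exact ⟨h2.1, fun h => by
          rcases h with h | h
          · exact h2.2 (Or.inr h)
          · exact h1.2 h⟩
      have hA''R : A'' ⊆ R := by
        obtain ⟨i, hi1, hi2⟩ : ∃ i ∈ A'', i ∈ R := by
          by_contra hcon
          push Not at hcon
          have h1 : (I'.filter (fun i => i ∈ A'')).card ≤
              (I.filter (fun i => i ∉ R)).card := by
            apply Finset.card_le_card
            intro i hi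
            rw [Finset.mem_filter] at hi ⊢
            exact ⟨hI'I hi.1, hcon i hi.2⟩
          have h2 := filter_card_compl (I := I') A''
          -- (E+1)|I' \ A''| ≤ |I'|, |I| < E |I'|, (E+1)|I \ R| ≤ |I|
          have h3 : (E + 1) * (I'.filter (fun i => i ∈ A'')).card ≤ I.card :=
            le_trans (Nat.mul_le_mul_left _ h1) hrbig
          have h4 : (E + 1) * (I'.filter (fun i => i ∉ A'')).card ≤ I'.card := hw'big
          have h5 : (E + 1) * I'.card ≤ I.card + I'.card := by
            calc (E + 1) * I'.card = (E + 1) * (I'.filter (fun i => i ∈ A'')).card +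
                (E + 1) * (I'.filter (fun i => i ∉ A'')).card := by rw [← h2]; ring
              _ ≤ _ := Nat.add_le_add h3 h4
          have h6 : (E + 1) * I'.card = E * I'.card + I'.card := by ring
          omega
        exact subset_cc_of_conn hA''sub (fun x hx y hy => cc_conn hx hy) hi1 hi2
      have hvA'' : ∀ x ∈ A'', ¬ G.Adj v x := fun x hx hadj => by
        have h1 := cc_subset u (cc_subset w' hx).1
        exact h1.2 (Or.inl (Or.inr hadj))
      have hw'A'' : w' ∈ A'' := mem_cc_self hw'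
      -- leaving `A''` inside `R`
      obtain ⟨z, w, hzA, hwA, hzR, hwR, hzw⟩ := exists_exit (C := A'') hw'A''
        (fun h => hvA'' w₀ h hw₀) (cc_conn (hA''R hw'A'') hw₀R)
      have hwA0 : w ∈ A \ (X' ∪ T') := cc_subset r hwR
      have hvw' : G.Adj v w := by
        by_contra hnadj
        have hwv : w ≠ v := fun h => hv (h ▸ hwA0.1)
        have h1 : w ∈ A' := cc_closed (cc_subset w' hzA).1
          ⟨hwA0.1, fun h => by
            rcases h with h | h
            · rcases h with h | h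
              · exact hwv h
              · exact hnadj h
            · exact hwA0.2 (Or.inl h)⟩ hzw
        exact hwA (cc_closed hzA ⟨h1, fun h => hwA0.2 (Or.inr h)⟩ hzw)
      have hwT : w ∉ T' := fun h => hwA0.2 (Or.inr h)
      have hNtr : ∀ x, x ∉ T' → Ntr G A'' (nb G x) I' q E := fun x hx => by
        have h1 : Ntr G A' (nb G x) I' (q + m) E := by
          by_contra hcon
          exact hx hcon
        exact ntr_restrict (A₁ := A'') (X₀ := T') (r := w') (c₀ := m) (D := E + 1) (by omega)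
          (by omega) hT'small h1 hw'big le_rfl
      refine HP.succ n v w A A'' hv hwA0.1 hvw' (fun x hx => (hA''sub hx).1) hvA'' ?_
      refine ih A'' I' w (fun x hx y hy => cc_conn hx hy) hI'ne ?_ ?_ hwA (hNtr w hwT)
        ⟨z, hzA, hzw.symm⟩
      · exact conc_restrict (A₁ := A'') (X₀ := T') (r := w') (c := c') (c₀ := m) hI'ne (by omega)
          (by omega) hT'small hconc hw'big le_rfl
      · exact fun x hx => hNtr x (cc_subset w' hx).2
    · -- non-hub case
      push Not at hub
      set O : Set V := {x | G.Adj v x} with hO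
      have hrR : r ∈ R := mem_cc_self hr
      have hRO : R ⊆ A \ O := fun x hx => ⟨(cc_subset r hx).1, fun h => hub x hx h⟩
      set A₁ := cc G (A \ O) r with hA₁
      have hrA : r ∈ A \ O := hRO hrR
      have hRA₁ : R ⊆ A₁ := subset_cc_of_conn hRO (fun x hx y hy => cc_conn hx hy) hrR
        (mem_cc_self hrA)
      obtain ⟨w₀, hw₀A, hw₀⟩ := hvw
      have hw₀A₁ : w₀ ∉ A₁ := fun h => (cc_subset r h).2 hw₀
      obtain ⟨z, w, hzA, hwA, hzR, hwR, hzw⟩ := exists_exit (C := A₁) (mem_cc_self hrA) hw₀A₁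
        (hA r hrA.1 w₀ hw₀A)
      have hvw' : G.Adj v w := by
        by_contra hnadj
        exact hwA (cc_closed hzA ⟨hwR, fun h => hnadj h⟩ hzw)
      have hNtr : ∀ x, Ntr G A (nb G x) I (N * (E * c') + m + q) E → Ntr G A₁ (nb G x) I q E :=
        fun x hx => ntr_restrict (A₁ := A₁) (X₀ := X' ∪ T') (r := r) (c₀ := N * (E * c') + m)
          (D := E + 1) (by omega) (by omega) hX'T' hx hrbig hRA₁
      refine HP.succ n v w A A₁ hv hwR hvw' (fun x hx => (cc_subset r hx).1)
        (fun x hx h => (cc_subset r hx).2 h) ?_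
      refine ih A₁ I w (fun x hx y hy => cc_conn hx hy) hI ?_ ?_ hwA (hNtr w (hNA w hwR))
        ⟨z, hzA, hzw.symm⟩
      · exact conc_restrict (A₁ := A₁) (X₀ := X' ∪ T') (r := r) (c₀ := N * (E * c') + m) hI
          (by omega) (by omega) hX'T' hC hrbig hRA₁
      · exact fun x hx => hNtr x (hNA x (cc_subset r hx).1)

end Pool.Agent.MP_8b3902_co
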