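import Pool.Agent.Lib.MP_8b3902_co.Sep

set_option autoImplicit false

namespace Pool.Agent.MP_8b3902_co

open Classical

variable {V : Type}

theorem kfree_of_isEmpty {G : SimpleGraph V} {t : ℕ}
    (h : IsEmpty (completeBipartiteGraph (Fin t) (Fin t) ↪g G)) : Kfree G t := by
  intro P Q hP hQ hPi hQi
  by_contra hcon
  push Not at hcon
  let e₁ := (Finset.equivFinOfCardEq hP).symm
  let e₂ := (Finset.equivFinOfCardEq hQ).symm
  have hne : ∀ i j, (e₁ i : V) ≠ (e₂ j : V) := fun i j hij => by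
    have h1 := hcon (e₁ i) (e₁ i).2 (e₂ j) (e₂ j).2
    rw [hij] at h1
    exact G.loopless.irrefl _ h1
  refine h.elim ⟨⟨Sum.elim (fun i => (e₁ i : V)) (fun j => (e₂ j : V)), ?_⟩, ?_⟩
  · rintro (i | i) (j | j) hij
    · simp only [Sum.elim_inl] at hij
      rw [e₁.injective (Subtype.ext hij)]
    · exact absurd hij (hne i j)
    · exact absurd hij.symm (hne j i)
    · simp only [Sum.elim_inr] at hij
      rw [e₂.injective (Subtype.ext hij)]
  · rintro (i | i) (j | j)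
    · change G.Adj (e₁ i : V) (e₁ j : V) ↔ _
      simpa using hPi _ (e₁ i).2 _ (e₁ j).2
    · change G.Adj (e₁ i : V) (e₂ j : V) ↔ _
      simpa using hcon _ (e₁ i).2 _ (e₂ j).2
    · change G.Adj (e₂ i : V) (e₁ j : V) ↔ _
      simpa using (hcon _ (e₁ j).2 _ (e₂ i).2).symm
    · change G.Adj (e₂ i : V) (e₂ j : V) ↔ _
      simpa using hQi _ (e₂ i).2 _ (e₂ j).2

theorem pfree_of_isEmpty {G : SimpleGraph V} {l : ℕ}
    (h : IsEmpty (SimpleGraph.pathGraph l ↪g G)) : Pfree G l := by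
  intro f hf
  refine h.elim ⟨⟨f, hf.1⟩, ?_⟩
  intro i j
  change G.Adj (f i) (f j) ↔ _
  rw [hf.2, SimpleGraph.pathGraph_adj]

theorem cliqueFree_knn (n : ℕ) : (completeBipartiteGraph (Fin n) (Fin n)).CliqueFree 3 :=
  SimpleGraph.Colorable.cliqueFree (n := 2)
    ((SimpleGraph.CompleteBipartiteGraph.bicoloring (Fin n) (Fin n)).colorable) (by norm_num)

/-- `{K_tt, P_l}`-free graphs have bounded tree-independence number. -/
theorem main_bound (t l : ℕ) : ∃ K : ℕ, ∀ (V : Type) [Fintype V] (G : SimpleGraph V),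
    IsEmpty (completeBipartiteGraph (Fin t) (Fin t) ↪g G) →
    IsEmpty (SimpleGraph.pathGraph l ↪g G) →
    ∃ (m : ℕ) (T : SimpleGraph (Fin m)) (B : Fin m → Finset V),
      T.IsTree ∧ (∀ v : V, ∃ t, v ∈ B t) ∧
      (∀ u v : V, G.Adj u v → ∃ t, u ∈ B t ∧ v ∈ B t) ∧
      (∀ v : V, (T.induce {t : Fin m | v ∈ B t}).Connected) ∧
      ∀ t, ∀ S : Finset V, S ⊆ B t →
        (∀ u ∈ S, ∀ w ∈ S, ¬ G.Adj u w) → S.card ≤ K :=
  ⟨5 * sepC t l + 3, fun _ _ G h1 h2 =>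
    treeAlpha G t l (kfree_of_isEmpty h1) (pfree_of_isEmpty h2)⟩

/-- Q1 for every finite family containing a linear forest. -/
theorem main_forest (k : ℕ) (n : Fin k → ℕ) (H : ∀ i, SimpleGraph (Fin (n i)))
    (hlin : ∃ i, ∃ l : ℕ, Nonempty (H i ↪g SimpleGraph.pathGraph l))
    (hf : ∃ f : ℕ → ℕ, ∀ (V : Type) [Fintype V] (G : SimpleGraph V),
        (∀ i, IsEmpty (H i ↪g G)) → ∀ c : ℕ, G.CliqueFree (c + 1) →
        ∃ (m : ℕ) (T : SimpleGraph (Fin m)) (B : Fin m → Finset V),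
          T.IsTree ∧ (∀ v : V, ∃ t, v ∈ B t) ∧
          (∀ u v : V, G.Adj u v → ∃ t, u ∈ B t ∧ v ∈ B t) ∧
          (∀ v : V, (T.induce {t : Fin m | v ∈ B t}).Connected) ∧
          ∀ t, (B t).card ≤ f c + 1) :
    ∃ K : ℕ, ∀ (V : Type) [Fintype V] (G : SimpleGraph V),
        (∀ i, IsEmpty (H i ↪g G)) →
        ∃ (m : ℕ) (T : SimpleGraph (Fin m)) (B : Fin m → Finset V),
          T.IsTree ∧ (∀ v : V, ∃ t, v ∈ B t) ∧
          (∀ u v : V, G.Adj u v → ∃ t, u ∈ B t ∧ v ∈ B t) ∧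
          (∀ v : V, (T.induce {t : Fin m | v ∈ B t}).Connected) ∧
          ∀ t, ∀ S : Finset V, S ⊆ B t →
            (∀ u ∈ S, ∀ w ∈ S, ¬ G.Adj u w) → S.card ≤ K := by
  obtain ⟨i, l, ⟨φ⟩⟩ := hlin
  obtain ⟨f, hf⟩ := hf
  -- some member of the family is an induced subgraph of `K_{N,N}`
  set N := f 2 + 2 with hN
  obtain ⟨j, ⟨ψ⟩⟩ : ∃ j, Nonempty (H j ↪g completeBipartiteGraph (Fin N) (Fin N)) := by
    by_contra hcon
    push Not at hcon
    obtain ⟨m, T, B, hT, _, hE, hC, hB⟩ := hf (Fin N ⊕ Fin N) (completeBipartiteGraph (Fin N) (Fin N))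
      (fun j => not_nonempty_iff.1 (by simpa using hcon j)) 2 (cliqueFree_knn N)
    obtain ⟨t, ht⟩ := knn_bag N m T B hT hE hC
    have := hB t
    omega
  obtain ⟨K, hK⟩ := main_bound N l
  refine ⟨K, fun V _ G hG => hK V G ⟨fun e => ?_⟩ ⟨fun e => ?_⟩⟩
  · exact (hG j).elim (e.comp ψ)
  · exact (hG i).elim (e.comp φ)

end Pool.Agent.MP_8b3902_co
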