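import Pool.Agent.Lib.MP_8b3902_co.Dec

set_option autoImplicit false

namespace Pool.Agent.MP_8b3902_co

open Classical

variable {V : Type}

private theorem td_isTree {n : ℕ} (hn : 0 < n) (q : Fin n → Fin n)
    (hq : ∀ i : Fin n, 0 < i.val → (q i).val < i.val)
    (hq0 : ∀ i : Fin n, i.val = 0 → q i = i) :
    (SimpleGraph.fromRel (fun i j : Fin n => j = q i)).IsTree := by
  set T := SimpleGraph.fromRel (fun i j : Fin n => j = q i) with hT
  have hreach : ∀ (k : ℕ) (i : Fin n), i.val = k → T.Reachable i ⟨0, hn⟩ := by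
    intro k
    induction k using Nat.strong_induction_on with
    | _ k ih =>
      intro i hi
      rcases Nat.eq_zero_or_pos i.val with h0 | h0
      · have : i = ⟨0, hn⟩ := Fin.ext h0
        rw [this]
      · have h1 := hq i h0
        have hadj : T.Adj i (q i) := by
          rw [hT, SimpleGraph.fromRel_adj]
          refine ⟨?_, Or.inl rfl⟩
          intro h
          rw [← h] at h1
          exact lt_irrefl _ h1
        exact hadj.reachable.trans (ih (q i).val (by omega) (q i) rfl)
  have hconn : T.Connected := by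
    rw [SimpleGraph.connected_iff]
    exact ⟨fun a b => (hreach _ a rfl).trans (hreach _ b rfl).symm, ⟨⟨0, hn⟩⟩⟩
  rw [SimpleGraph.isTree_iff_connected_and_card]
  refine ⟨hconn, ?_⟩
  have h1 := hconn.card_vert_le_card_edgeSet_add_one
  have h2 : T.edgeFinset ⊆ (Finset.univ.filter (fun i : Fin n => 0 < i.val)).image
      (fun i => s(i, q i)) := by
    intro e he
    rw [SimpleGraph.mem_edgeFinset] at he
    induction e using Sym2.ind with
    | _ a b =>
      rw [SimpleGraph.mem_edgeSet, hT, SimpleGraph.fromRel_adj] at he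
      obtain ⟨hab, he⟩ := he
      rw [Finset.mem_image]
      rcases he with he | he
      · refine ⟨a, ?_, by rw [← he]⟩
        rw [Finset.mem_filter]
        refine ⟨Finset.mem_univ _, ?_⟩
        by_contra h
        exact hab ((hq0 a (by omega)).symm.trans he.symm)
      · refine ⟨b, ?_, by rw [← he, Sym2.eq_swap]⟩
        rw [Finset.mem_filter]
        refine ⟨Finset.mem_univ _, ?_⟩
        by_contra h
        exact hab (he.trans (hq0 b (by omega)))
  have h3 := (Finset.card_le_card h2).trans Finset.card_image_le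
  have h4 : (Finset.univ.filter (fun i : Fin n => 0 < i.val)).card ≤ n - 1 := by
    have h5 : (Finset.univ.filter (fun i : Fin n => 0 < i.val)) ⊆
        Finset.univ.erase (⟨0, hn⟩ : Fin n) := by
      intro i hi
      rw [Finset.mem_filter] at hi
      rw [Finset.mem_erase]
      refine ⟨?_, Finset.mem_univ _⟩
      rintro rfl
      exact lt_irrefl _ hi.2
    have h6 := Finset.card_le_card h5
    rw [Finset.card_erase_of_mem (Finset.mem_univ _), Finset.card_univ, Fintype.card_fin] at h6
    exact h6
  have h7 : Nat.card T.edgeSet = T.edgeFinset.card := by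
    rw [Nat.card_eq_fintype_card, SimpleGraph.edgeFinset_card]
  rw [Nat.card_eq_fintype_card (α := Fin n), Fintype.card_fin] at h1 ⊢
  omega

/-- T10. from the running intersection form to a tree decomposition in the form of the frozen
statement. -/
theorem treeDec_of_hasDec [Fintype V] (G : SimpleGraph V) (R : Finset V) (K : ℕ)
    (h : HasDec G Finset.univ R K) :
    ∃ (m : ℕ) (T : SimpleGraph (Fin m)) (B : Fin m → Finset V),
      T.IsTree ∧ (∀ v : V, ∃ t, v ∈ B t) ∧
      (∀ u v : V, G.Adj u v → ∃ t, u ∈ B t ∧ v ∈ B t) ∧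
      (∀ v : V, (T.induce {t : Fin m | v ∈ B t}).Connected) ∧
      ∀ t, ∀ S : Finset V, S ⊆ B t →
        (∀ u ∈ S, ∀ w ∈ S, ¬ G.Adj u w) → S.card ≤ K := by
  obtain ⟨n, B, p, hn, -, -, hcov, hadj, hrun, hsmall⟩ := h
  let q : Fin n → Fin n := fun i =>
    if h : 0 < i.val then ⟨p i.val, (hrun i.val i.isLt h).1.trans i.isLt⟩ else i
  have hqv : ∀ i : Fin n, 0 < i.val → (q i).val = p i.val := by
    intro i hi
    simp only [q, dif_pos hi]
  have hq : ∀ i : Fin n, 0 < i.val → (q i).val < i.val := by
    intro i hi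
    rw [hqv i hi]
    exact (hrun i.val i.isLt hi).1
  have hq0 : ∀ i : Fin n, i.val = 0 → q i = i := by
    intro i hi
    have : ¬ 0 < i.val := by omega
    simp only [q, dif_neg this]
  refine ⟨n, SimpleGraph.fromRel (fun i j : Fin n => j = q i), fun t => B t.val,
    td_isTree hn q hq hq0, ?_, ?_, ?_, ?_⟩
  · intro v
    obtain ⟨i, hi, hv⟩ := hcov v (Finset.mem_univ v)
    exact ⟨⟨i, hi⟩, hv⟩
  · intro u v huv
    obtain ⟨i, hi, hu, hv⟩ := hadj u (Finset.mem_univ u) v (Finset.mem_univ v) huv
    exact ⟨⟨i, hi⟩, hu, hv⟩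
  · intro v
    have hex : ∃ i, i < n ∧ v ∈ B i := by
      obtain ⟨i, hi, hv⟩ := hcov v (Finset.mem_univ v)
      exact ⟨i, hi, hv⟩
    obtain ⟨hj1, hj2⟩ := Nat.find_spec hex
    set j := Nat.find hex with hj
    have hmin : ∀ i, i < n → v ∈ B i → j ≤ i := fun i hi hv => Nat.find_min' hex ⟨hi, hv⟩
    set S : Set (Fin n) := {t : Fin n | v ∈ B t.val} with hS
    set T := SimpleGraph.fromRel (fun i j : Fin n => j = q i) with hT
    have hreach : ∀ (k : ℕ) (i : Fin n) (hi : i ∈ S), i.val = k →
        (T.induce S).Reachable ⟨i, hi⟩ ⟨⟨j, hj1⟩, hj2⟩ := by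
      intro k
      induction k using Nat.strong_induction_on with
      | _ k ih =>
        intro i hi hik
        have hvi : v ∈ B i.val := hi
        rcases eq_or_lt_of_le (hmin i.val i.isLt hvi) with h0 | h0
        · have : i = ⟨j, hj1⟩ := Fin.ext h0.symm
          subst this
          exact SimpleGraph.Reachable.refl _
        · have hpos : 0 < i.val := by omega
          have h1 := hq i hpos
          have h2 : q i ∈ S := by
            change v ∈ B (q i).val
            rw [hqv i hpos]
            exact (hrun i.val i.isLt hpos).2 j h0 v hvi hj2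
          have hadj' : (T.induce S).Adj ⟨i, hi⟩ ⟨q i, h2⟩ := by
            rw [SimpleGraph.comap_adj]
            change T.Adj i (q i)
            rw [hT, SimpleGraph.fromRel_adj]
            refine ⟨?_, Or.inl rfl⟩
            intro h
            rw [← h] at h1
            exact lt_irrefl _ h1
          exact hadj'.reachable.trans (ih (q i).val (by omega) (q i) h2 rfl)
    rw [SimpleGraph.connected_iff]
    exact ⟨fun a b => (hreach _ a.1 a.2 rfl).trans (hreach _ b.1 b.2 rfl).symm,
      ⟨⟨⟨j, hj1⟩, hj2⟩⟩⟩
  · intro t S hS hind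
    exact hsmall t.val t.isLt S (fun v hv => hS hv) hind

end Pool.Agent.MP_8b3902_co
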