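import Pool.Agent.Lib.MP_8b3902_co.Grow
import Pool.Agent.Lib.MP_8b3902_co.DecSep
import Pool.Agent.Lib.MP_8b3902_co.TreeDec
import Pool.Agent.Lib.MP_8b3902_co.Knn

set_option autoImplicit false

namespace Pool.Agent.MP_8b3902_co

open Classical

variable {V : Type}

theorem pow_bound (E : ℕ) : E * E ^ (E * E) ≤ (E + 1) ^ (E * E) := by
  rcases Nat.eq_zero_or_pos E with rfl | hE
  · simp
  -- Bernoulli: (1 + 1/E)^(E*E) ≥ 1 + E
  have h1 : (1 + (E * E : ℕ) * (1 / (E : ℝ))) ≤ (1 + 1 / (E : ℝ)) ^ (E * E) :=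
    one_add_mul_le_pow (by
      have : (0:ℝ) ≤ 1 / (E : ℝ) := by positivity
      linarith) _
  have hE' : (0 : ℝ) < E := by exact_mod_cast hE
  have h2 : (E : ℝ) ≤ (1 + 1 / (E : ℝ)) ^ (E * E) := by
    refine le_trans ?_ h1
    have : ((E * E : ℕ) : ℝ) * (1 / (E : ℝ)) = E := by
      push_cast
      field_simp
    rw [this]
    linarith
  have h3 : (E : ℝ) * (E : ℝ) ^ (E * E) ≤ ((E : ℝ) + 1) ^ (E * E) := by
    have h4 : ((E : ℝ) + 1) ^ (E * E) = (1 + 1 / (E : ℝ)) ^ (E * E) * (E : ℝ) ^ (E * E) := by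
      rw [← mul_pow]
      congr 1
      field_simp
    rw [h4]
    exact mul_le_mul_of_nonneg_right h2 (by positivity)
  exact_mod_cast h3

/-- the separator constant. -/
def sepC (t k : ℕ) : ℕ :=
  let m := t * k
  let E := 4 * m + 2
  let N := E * E
  let q := par m E N t k + 1
  N * (E * (m * (q + m) + 2 ^ m * t + q + m))

/-- In a graph with no induced `K_{t,t}` and no induced path on `k` vertices every set of vertices
has a balanced separator of bounded independence number. -/
theorem sep [Fintype V] (G : SimpleGraph V) (t k : ℕ) (hK : Kfree G t) (hP : Pfree G k) :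
    ∀ W : Finset V, ∃ X : Set V, Small G X (sepC t k) ∧
      ∀ u ∉ X, 2 * (W.filter (fun i => i ∈ cc G Xᶜ u)).card ≤ W.card := by
  intro W
  by_contra hcon
  push Not at hcon
  set m := t * k with hm
  set E := 4 * m + 2 with hE
  set N := E * E with hNdef
  set q := par m E N t k + 1 with hq
  set c' := m * (q + m) + 2 ^ m * t + q + m with hc'
  have hsepC : sepC t k = N * (E * c') := rfl
  -- first concentrated pair
  have hN2 : Ntr G Set.univ ∅ W (N * (E * c')) E := by
    intro X hX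
    obtain ⟨u, hu, hbig⟩ := hcon X (by rw [hsepC]; exact hX)
    refine ⟨u, ⟨trivial, by simpa using hu⟩, ?_⟩
    have h1 : (Set.univ : Set V) \ (∅ ∪ X) = Xᶜ := by ext x; simp
    rw [h1]
    calc W.card < 2 * (W.filter (fun i => i ∈ cc G Xᶜ u)).card := hbig
      _ ≤ E * (W.filter (fun i => i ∈ cc G Xᶜ u)).card := Nat.mul_le_mul_right _ (by omega)
  obtain ⟨X', u, hX', hu, hbig, hconc⟩ := break_lemma G Set.univ ∅ W (N * (E * c')) c' (E + 1) E N
    (by omega) (by omega) (by simpa using pow_bound E) le_rfl hN2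
  set A' := cc G (Set.univ \ (∅ ∪ X')) u with hA'
  set I' := W.filter (fun i => i ∈ A') with hI'
  have hI'ne : I'.Nonempty := by
    rw [← Finset.card_pos]
    by_contra h0
    have : I'.card = 0 := by omega
    rw [this] at hbig
    omega
  set T' : Set V := {w | ¬ Ntr G A' (nb G w) I' (q + m) E} with hT'
  have hT'small : Small G T' m := trap_small hK hP hI'ne (by omega) (by omega)
    (by rw [← hm]; omega) hconc
  obtain ⟨w', hw', hw'big⟩ := hconc T' (small_mono le_rfl (by omega) hT'small)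
  set A'' := cc G (A' \ T') w' with hA''
  have hNtr : ∀ x, x ∉ T' → Ntr G A'' (nb G x) I' q E := fun x hx => by
    have h1 : Ntr G A' (nb G x) I' (q + m) E := by
      by_contra hcon
      exact hx hcon
    exact ntr_restrict (A₁ := A'') (X₀ := T') (r := w') (c₀ := m) (D := E + 1) (by omega)
      (by omega) hT'small h1 hw'big le_rfl
  have hconc'' : Conc G A'' I' q (E + 1) :=
    conc_restrict (A₁ := A'') (X₀ := T') (r := w') (c := c') (c₀ := m) hI'ne (by omega)
      (by omega) hT'small hconc hw'big le_rfl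
  -- choose the first vertex
  obtain ⟨y, hy, hybig⟩ := hconc'' {w'} (small_mono le_rfl (by omega) (small_singleton w'))
  set A₀ := cc G (A'' \ {w'}) y with hA₀
  have hw'A'' : w' ∈ A'' := mem_cc_self hw'
  have hw'A₀ : w' ∉ A₀ := fun h => (cc_subset y h).2 rfl
  obtain ⟨z, w, hzA, hwA, hzR, hwR, hzw⟩ := exists_exit (C := A₀) (mem_cc_self hy) hw'A₀
    (cc_conn hy.1 hw'A'')
  have hww' : w = w' := by
    by_contra hne
    exact hwA (cc_closed hzA ⟨hwR, by simpa using hne⟩ hzw)
  subst hww'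
  have hsing : Small G ({w} : Set V) 1 := small_singleton w
  have key : HP G k w A₀ := by
    have hgrow := grow (G := G) (N := N) (E := E) hK hP (by omega) (by omega) (pow_bound E) k
      A₀ I' w (fun x hx y hy => cc_conn hx hy) hI'ne
    rw [← hm] at hgrow
    refine hgrow ?_ ?_ hw'A₀ ?_ ⟨z, hzA, hzw.symm⟩
    · exact conc_restrict (A₁ := A₀) (X₀ := {w}) (r := y) (c₀ := 1) hI'ne (by omega)
        (by omega) hsing hconc'' hybig le_rfl
    · exact fun x hx => ntr_restrict (A₁ := A₀) (X₀ := {w}) (r := y) (c₀ := 1) (D := E + 1)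
        (by omega) (by omega) hsing (hNtr x (cc_subset w (cc_subset y hx).1).2) hybig le_rfl
    · exact ntr_restrict (A₁ := A₀) (X₀ := {w}) (r := y) (c₀ := 1) (D := E + 1)
        (by omega) (by omega) hsing (hNtr w hw'.2) hybig le_rfl
  obtain ⟨f, hf, _, _⟩ := key.indPath
  exact hP _ (hf.take (Nat.le_succ k))

/-- Bounded tree-independence number. -/
theorem treeAlpha [Fintype V] (G : SimpleGraph V) (t k : ℕ) (hK : Kfree G t) (hP : Pfree G k) :
    ∃ (m : ℕ) (T : SimpleGraph (Fin m)) (B : Fin m → Finset V),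
      T.IsTree ∧ (∀ v : V, ∃ t, v ∈ B t) ∧
      (∀ u v : V, G.Adj u v → ∃ t, u ∈ B t ∧ v ∈ B t) ∧
      (∀ v : V, (T.induce {t : Fin m | v ∈ B t}).Connected) ∧
      ∀ i, ∀ S : Finset V, S ⊆ B i →
        (∀ u ∈ S, ∀ w ∈ S, ¬ G.Adj u w) → S.card ≤ 5 * sepC t k + 3 := by
  obtain ⟨R, hR⟩ := hasDec_of_sep G (sepC t k) (sep G t k hK hP)
  exact treeDec_of_hasDec G R _ hR

end Pool.Agent.MP_8b3902_co
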